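import Pool.Agent.H98.Growth.Core

/-!
# Packing and the connectivity argument
-/

set_option autoImplicit false

open MeasureTheory Set
open scoped Pointwise

namespace Pool.Agent.H98.Growth

variable {G : Type*} [Group G] [TopologicalSpace G] [IsTopologicalGroup G]
  [MeasurableSpace G] [BorelSpace G] {μ : Measure G} [μ.IsHaarMeasure]

theorem packing {W : Set G} (hWm : MeasurableSet W) (hWfin : μ W ≠ ⊤) (κ : ℝ) (hκ : 0 ≤ κ)
    (F : Finset G) (hF : ∀ x ∈ F, ∀ y ∈ F, x ≠ y → μ.real (x • W ∩ y • W) ≤ κ) :
    F.card * μ.real W ≤ μ.real (⋃ x ∈ F, x • W) + (F.card : ℝ) ^ 2 * κ := by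
  classical
  induction F using Finset.induction_on with
  | empty => simp
  | insert g F hg ih =>
      have ih' := ih fun x hx y hy hxy =>
        hF x (Finset.mem_insert_of_mem hx) y (Finset.mem_insert_of_mem hy) hxy
      have hm : MeasurableSet (⋃ x ∈ F, x • W) :=
        Finset.measurableSet_biUnion F fun x _ => hWm.const_smul x
      have hgm : MeasurableSet (g • W) := hWm.const_smul g
      have hsm : ∀ x : G, μ (x • W) ≠ ⊤ := fun x => by rwa [measure_smul]
      have hfin : μ (⋃ x ∈ F, x • W) ≠ ⊤ := by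
        refine (lt_of_le_of_lt (measure_biUnion_finset_le F _) ?_).ne
        exact ENNReal.sum_lt_top.mpr fun x _ => (hsm x).lt_top
      have h1 : μ.real ((⋃ x ∈ F, x • W) ∪ g • W) + μ.real ((⋃ x ∈ F, x • W) ∩ g • W)
          = μ.real (⋃ x ∈ F, x • W) + μ.real (g • W) :=
        measureReal_union_add_inter hgm hfin (hsm g)
      have h2 : μ.real ((⋃ x ∈ F, x • W) ∩ g • W) ≤ F.card * κ := by
        have e : (⋃ x ∈ F, x • W) ∩ g • W = ⋃ x ∈ F, (x • W ∩ g • W) := by
          rw [Set.iUnion₂_inter]
        rw [e]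
        refine (measureReal_biUnion_finset_le F _).trans ?_
        have : ∑ x ∈ F, μ.real (x • W ∩ g • W) ≤ ∑ _x ∈ F, κ := by
          apply Finset.sum_le_sum
          intro x hx
          apply hF x (Finset.mem_insert_of_mem hx) g (Finset.mem_insert_self _ _)
          rintro rfl
          exact hg hx
        refine this.trans ?_
        rw [Finset.sum_const, nsmul_eq_mul]
      rw [Finset.card_insert_of_notMem hg, Finset.set_biUnion_insert, Set.union_comm]
      rw [real_smul] at h1
      push_cast
      nlinarith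

theorem one_mem_stab {W : Set G} {κ : ℝ} (h : κ ≤ μ.real W) : (1 : G) ∈ stab μ W κ := by
  change κ ≤ μ.real (W ∩ (1 : G) • W)
  rw [one_smul, Set.inter_self]
  exact h

theorem inv_mem_stab {W : Set G} {κ : ℝ} {g : G} (h : g ∈ stab μ W κ) : g⁻¹ ∈ stab μ W κ := by
  change κ ≤ μ.real (W ∩ g⁻¹ • W)
  have h' : κ ≤ μ.real (W ∩ g • W) := h
  have e : g⁻¹ • (W ∩ g • W) = W ∩ g⁻¹ • W := by
    rw [Set.smul_set_inter, inv_smul_smul, Set.inter_comm]
  rw [← e, real_smul]
  exact h'

/-- sets of elements whose translates of `W` nearly do not meet -/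
def Sep (D : Set G) (F : Finset G) : Prop := ∀ x ∈ F, ∀ y ∈ F, x ≠ y → x⁻¹ * y ∉ D

/-- The connectivity argument. -/
theorem chain (S D : Set G) (h1 : (1 : G) ∈ S) (hD1 : (1 : G) ∈ D) (hDi : ∀ g ∈ D, g⁻¹ ∈ D)
    (N m : ℕ) (hN : ∀ F : Finset G, (F : Set G) ⊆ S ^ (m * N) → Sep D F → F.card < N) :
    ∃ (j : ℕ) (F : Finset G), F.card < N ∧ ∀ t, 1 ≤ t →
      S ^ (m * (j + t)) ⊆ (F : Set G) * D ^ t := by
  classical
  -- a stage at which the maximal number of separated elements does not grow
  obtain ⟨j, F, hjN, hFS, hFsep, hmax⟩ : ∃ (j : ℕ) (F : Finset G), j + 1 ≤ N ∧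
      (F : Set G) ⊆ S ^ (m * j) ∧ Sep D F ∧
      ∀ F' : Finset G, (F' : Set G) ⊆ S ^ (m * (j + 1)) → Sep D F' → F'.card ≤ F.card := by
    by_contra hcon
    push Not at hcon
    have key : ∀ j ≤ N, ∃ F : Finset G, (F : Set G) ⊆ S ^ (m * j) ∧ Sep D F ∧ j + 1 ≤ F.card := by
      intro j
      induction j with
      | zero =>
          intro _
          refine ⟨{1}, ?_, ?_, ?_⟩
          · simp
          · intro x hx y hy hxy
            simp only [Finset.mem_singleton] at hx hy
            exact absurd (hx.trans hy.symm) hxy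
          · simp
      | succ j ih =>
          intro hj
          obtain ⟨F, hF1, hF2, hF3⟩ := ih (by omega)
          obtain ⟨F', hF'1, hF'2, hF'3⟩ := hcon j F (by omega) hF1 hF2
          exact ⟨F', hF'1, hF'2, by omega⟩
    obtain ⟨F, hF1, hF2, hF3⟩ := key N le_rfl
    have := hN F hF1 hF2
    omega
  have hmono : ∀ a b, a ≤ b → S ^ a ⊆ S ^ b := fun a b hab => Set.pow_subset_pow_right h1 hab
  have hstart : S ^ (m * (j + 1)) ⊆ (F : Set G) * D := by
    intro g hg
    by_cases hgF : g ∈ F
    · exact ⟨g, hgF, 1, hD1, mul_one g⟩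
    · by_contra hcon
      have hsep : Sep D (insert g F) := by
        intro x hx y hy hxy hxyD
        rw [Finset.mem_insert] at hx hy
        rcases hx with rfl | hx
        · rcases hy with rfl | hy
          · exact hxy rfl
          · have h2 := hDi _ hxyD
            have e : (x⁻¹ * y)⁻¹ = y⁻¹ * x := by group
            rw [e] at h2
            exact hcon ⟨y, hy, y⁻¹ * x, h2, by group⟩
        · rcases hy with rfl | hy
          · exact hcon ⟨x, hx, x⁻¹ * y, hxyD, by group⟩
          · exact hFsep x hx y hy hxy hxyD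
      have hsub : ((insert g F : Finset G) : Set G) ⊆ S ^ (m * (j + 1)) := by
        intro z hz
        rw [Finset.mem_coe, Finset.mem_insert] at hz
        rcases hz with rfl | hz
        · exact hg
        · exact hmono _ _ (Nat.mul_le_mul_left m (by omega)) (hFS hz)
      have := hmax _ hsub hsep
      rw [Finset.card_insert_of_notMem hgF] at this
      omega
  have hFcard : F.card < N :=
    hN F (hFS.trans (hmono _ _ (Nat.mul_le_mul_left m (by omega)))) hFsep
  refine ⟨j, F, hFcard, ?_⟩
  intro t ht
  induction t with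
  | zero => omega
  | succ t ih =>
      by_cases ht0 : t = 0
      · subst ht0
        simpa using hstart
      · have ih' := ih (by omega)
        have e1 : m * (j + (t + 1)) = m + m * (j + t) := by ring
        rw [e1, pow_add]
        calc S ^ m * S ^ (m * (j + t)) ⊆ S ^ m * ((F : Set G) * D ^ t) :=
              Set.mul_subset_mul_left ih'
          _ = (S ^ m * (F : Set G)) * D ^ t := (mul_assoc _ _ _).symm
          _ ⊆ S ^ (m * (j + 1)) * D ^ t := by
              apply Set.mul_subset_mul_right
              have e2 : m * (j + 1) = m + m * j := by ring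
              rw [e2, pow_add]
              exact Set.mul_subset_mul_left hFS
          _ ⊆ ((F : Set G) * D) * D ^ t := Set.mul_subset_mul_right hstart
          _ = (F : Set G) * D ^ (t + 1) := by rw [mul_assoc, ← pow_succ']

end Pool.Agent.H98.Growth
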