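import Mathlib

/-!
# Convolution of continuous compactly supported functions on a locally compact group

Only left invariance is used, and no countability assumption is made.
-/

set_option autoImplicit false

open MeasureTheory Set
open scoped Pointwise

namespace Pool.Agent.H98.Growth

variable {G : Type*} [Group G] [TopologicalSpace G] [IsTopologicalGroup G]
  [MeasurableSpace G] [BorelSpace G] (μ : Measure G)

/-- convolution -/
noncomputable def conv (f g : G → ℝ) (y : G) : ℝ := ∫ b, f b * g (b⁻¹ * y) ∂μ

/-- continuous with compact support -/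
structure CC (f : G → ℝ) : Prop where
  cont : Continuous f
  supp : HasCompactSupport f

theorem CC.intro {f : G → ℝ} (hf : Continuous f) {k : Set G} (hk : IsCompact k)
    (h : ∀ x, x ∉ k → f x = 0) : CC f :=
  ⟨hf, HasCompactSupport.intro hk h⟩

theorem CC.integrable {f : G → ℝ} (hf : CC f) [IsFiniteMeasureOnCompacts μ] : Integrable f μ :=
  hf.cont.integrable_of_hasCompactSupport hf.supp

theorem CC.const_mul {f : G → ℝ} (hf : CC f) (c : ℝ) : CC fun x => c * f x :=
  ⟨continuous_const.mul hf.cont, hf.supp.mul_left⟩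

variable {μ}

variable [μ.IsHaarMeasure]

theorem conv_cc {f g : G → ℝ} (hf : CC f) (hg : CC g) : CC (conv μ f g) := by
  have hcont : Continuous (conv μ f g) := by
    rw [← continuousOn_univ]
    apply continuousOn_integral_of_compact_support (k := tsupport f) hf.supp
    · exact ((hf.cont.comp continuous_snd).mul
        (hg.cont.comp (continuous_snd.inv.mul continuous_fst))).continuousOn
    · intro p x _ hx
      rw [image_eq_zero_of_notMem_tsupport hx, zero_mul]
  refine CC.intro hcont (hf.supp.isCompact.mul hg.supp.isCompact) ?_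
  intro y hy
  unfold conv
  rw [integral_eq_zero_of_ae]
  refine Filter.Eventually.of_forall fun b => ?_
  by_cases hb : b ∈ tsupport f
  · have : b⁻¹ * y ∉ tsupport g := by
      intro h
      apply hy
      have e : y = b * (b⁻¹ * y) := by group
      rw [e]
      exact Set.mul_mem_mul hb h
    simp [image_eq_zero_of_notMem_tsupport this]
  · simp [image_eq_zero_of_notMem_tsupport hb]

theorem conv_nonneg {f g : G → ℝ} (hf : ∀ x, 0 ≤ f x) (hg : ∀ x, 0 ≤ g x) (y : G) :
    0 ≤ conv μ f g y :=
  integral_nonneg fun _ => mul_nonneg (hf _) (hg _)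

theorem integral_conv {f g : G → ℝ} (hf : CC f) (hg : CC g) :
    ∫ y, conv μ f g y ∂μ = (∫ y, f y ∂μ) * ∫ y, g y ∂μ := by
  have hswap : ∫ y, (∫ b, f b * g (b⁻¹ * y) ∂μ) ∂μ = ∫ b, (∫ y, f b * g (b⁻¹ * y) ∂μ) ∂μ := by
    apply integral_integral_swap_of_hasCompactSupport
      (f := fun y b => f b * g (b⁻¹ * y))
    · exact (hf.cont.comp continuous_snd).mul
        (hg.cont.comp (continuous_snd.inv.mul continuous_fst))
    · refine HasCompactSupport.intro
        ((hf.supp.isCompact.mul hg.supp.isCompact).prod hf.supp.isCompact) ?_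
      rintro ⟨y, b⟩ hyb
      change f b * g (b⁻¹ * y) = 0
      by_cases hb : b ∈ tsupport f
      · have : b⁻¹ * y ∉ tsupport g := by
          intro h
          apply hyb
          refine ⟨?_, hb⟩
          have e : y = b * (b⁻¹ * y) := by group
          change y ∈ _
          rw [e]
          exact Set.mul_mem_mul hb h
        simp [image_eq_zero_of_notMem_tsupport this]
      · simp [image_eq_zero_of_notMem_tsupport hb]
  unfold conv
  rw [hswap]
  have h2 : ∀ b, ∫ y, f b * g (b⁻¹ * y) ∂μ = f b * ∫ y, g y ∂μ := by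
    intro b
    rw [integral_const_mul, integral_mul_left_eq_self]
  simp_rw [h2]
  rw [integral_mul_const]

/-- swapping the order of integration in a double integral -/
theorem swap2 (H : G → G → ℝ) (hH : Continuous fun p : G × G => H p.1 p.2) (k : Set G)
    (hk : IsCompact k) (h0 : ∀ z x, H z x ≠ 0 → z ∈ k ∧ x ∈ k) :
    ∫ z, (∫ x, H z x ∂μ) ∂μ = ∫ x, (∫ z, H z x ∂μ) ∂μ := by
  apply integral_integral_swap_of_hasCompactSupport (f := fun z x => H z x)
  · exact hH
  · refine HasCompactSupport.intro (hk.prod hk) ?_
    rintro ⟨z, x⟩ hzx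
    by_contra hne
    exact hzx (h0 z x hne)

/-- swapping the order of integration in a triple integral -/
theorem swap3 (H : G → G → G → ℝ) (hH : Continuous fun p : G × G × G => H p.1 p.2.1 p.2.2)
    (k : Set G) (hk : IsCompact k) (h0 : ∀ z x y, H z x y ≠ 0 → z ∈ k ∧ x ∈ k ∧ y ∈ k) :
    ∫ z, (∫ x, (∫ y, H z x y ∂μ) ∂μ) ∂μ = ∫ x, (∫ y, (∫ z, H z x y ∂μ) ∂μ) ∂μ := by
  have hc : Continuous fun p : G × G => ∫ y, H p.1 p.2 y ∂μ := by
    rw [← continuousOn_univ]
    apply continuousOn_integral_of_compact_support (f := fun (p : G × G) y => H p.1 p.2 y) hk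
    · exact (hH.comp ((continuous_fst.comp continuous_fst).prodMk
        ((continuous_snd.comp continuous_fst).prodMk continuous_snd))).continuousOn
    · intro p x _ hx
      by_contra hne
      exact hx (h0 _ _ _ hne).2.2
  rw [swap2 (fun z x => ∫ y, H z x y ∂μ) hc k hk ?_]
  · congr 1
    ext x
    apply swap2 (fun z y => H z x y) ?_ k hk
    · intro z y hne
      exact ⟨(h0 z x y hne).1, (h0 z x y hne).2.2⟩
    · exact hH.comp (continuous_fst.prodMk (continuous_const.prodMk continuous_snd))
  · intro z x hne
    by_contra hcon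
    apply hne
    rw [integral_eq_zero_of_ae]
    refine Filter.Eventually.of_forall fun y => ?_
    by_contra hne'
    exact hcon ⟨(h0 z x y hne').1, (h0 z x y hne').2.1⟩

end Pool.Agent.H98.Growth
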