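import Pool.Agent.H98.Growth.Weight

/-!
# A set with controlled quotient set, and control of powers of its almost stabilizer
-/

set_option autoImplicit false

open MeasureTheory Set
open scoped Pointwise

namespace Pool.Agent.H98.Growth

variable {G : Type*} [Group G] [TopologicalSpace G] [IsTopologicalGroup G]
  [MeasurableSpace G] [BorelSpace G] {μ : Measure G} [μ.IsHaarMeasure]

theorem conv_symm {u : G → ℝ} (hi : ∀ x, u x⁻¹ = u x) (p : G) :
    conv μ u u p⁻¹ = conv μ u u p := by
  unfold conv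
  rw [← integral_mul_left_eq_self (fun b => u b * u (b⁻¹ * p⁻¹)) p⁻¹]
  congr 1
  ext b
  have e1 : (p⁻¹ * b)⁻¹ * p⁻¹ = b⁻¹ := by group
  have e2 : u (p⁻¹ * b) = u (b⁻¹ * p) := by
    rw [← hi]; congr 1; group
  rw [e1, e2, hi, mul_comm]

/-- **Step C.** -/
theorem exists_core [LocallyCompactSpace G] [μ.InnerRegularCompactLTTop] (U V : Set G)
    (hUo : IsOpen U) (hUc : IsCompact (closure U)) (hUi : U⁻¹ = U) (hVo : IsOpen V) (hVU : V ⊆ U)
    (K τ : ℝ) (hK : 1 ≤ K) (hτ : 0 < τ) (hV0 : 0 < μ.real V)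
    (hUK : μ.real U ≤ K * μ.real V) (hover : ∀ x ∈ V, τ * μ.real V ≤ μ.real (x • U ∩ U)) :
    ∃ (W : Set G) (θ : G → ℝ), MeasurableSet W ∧ W ⊆ V ∧ τ * μ.real V / (16 * K) ≤ μ.real W ∧
      CC θ ∧ (∀ x, 0 ≤ θ x) ∧ (∀ x ∈ W, ∀ y ∈ W, 1 ≤ θ (x⁻¹ * y)) ∧
      ∫ x, θ x ∂μ ≤ 262144 * K ^ 7 * μ.real V / τ ^ 5 := by
  obtain ⟨u, w, hu, hu01, hui, huint, hw, hw01, hw0, hI, hBad⟩ :=
    exists_weight (μ := μ) U V hUo hUc hUi hVo hVU K τ hK hτ hV0 hUK hover
  set a : ℝ := μ.real V with ha
  set l : ℝ := τ ^ 2 * a / (128 * K) with hl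
  have hK0 : 0 < K := by linarith
  have hl0 : 0 < l := by positivity
  set I : ℝ := ∫ x, w x ∂μ with hIdef
  have hI0 : 0 < I := lt_of_lt_of_le (by positivity) hI
  have hbc := bet_continuous (μ := μ) hu l
  -- the defect of a point
  set B : G → ℝ := fun x => ∫ y, bet μ u l x y * w y ∂μ with hB
  have hBcont : Continuous B := by
    rw [← continuousOn_univ]
    apply continuousOn_integral_of_compact_support (k := tsupport w)
      (f := fun x y => bet μ u l x y * w y) hw.supp
    · exact (hbc.mul (hw.cont.comp continuous_snd)).continuousOn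
    · intro p y _ hy
      rw [image_eq_zero_of_notMem_tsupport hy, mul_zero]
  have hB0 : ∀ x, 0 ≤ B x := fun x => integral_nonneg fun y =>
    mul_nonneg (bet_nonneg _ _ _ _) (hw01 y).1
  have hwB : CC fun x => w x * B x := CC.intro (hw.cont.mul hBcont) hw.supp.isCompact fun x hx => by
    rw [image_eq_zero_of_notMem_tsupport hx, zero_mul]
  have hwBint : ∫ x, w x * B x ∂μ ≤ I ^ 2 / 16 := by
    have e : ∫ x, (∫ y, bet μ u l x y * (w x * w y) ∂μ) ∂μ = ∫ x, w x * B x ∂μ := by
      congr 1; ext x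
      rw [hB]
      simp only
      rw [← integral_const_mul]
      congr 1; ext y; ring
    rw [e] at hBad
    linarith
  set W : Set G := {x | 0 < w x} ∩ {x | B x ≤ I / 8} with hWdef
  have hWm : MeasurableSet W :=
    (isOpen_lt continuous_const hw.cont).measurableSet.inter
      (isClosed_le hBcont continuous_const).measurableSet
  have hWV : W ⊆ V := by
    intro x hx
    by_contra hcon
    have h1 : 0 < w x := hx.1
    rw [hw0 x hcon] at h1
    exact lt_irrefl _ h1
  have hVfin : μ V ≠ ⊤ := ((measure_mono (hVU.trans subset_closure)).trans_lt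
    hUc.measure_lt_top).ne
  have hWfin : μ W ≠ ⊤ := ne_top_of_le_ne_top hVfin (measure_mono hWV)
  have hWI : I / 2 ≤ μ.real W := by
    have hWi : Integrable (W.indicator fun _ => (1 : ℝ)) μ :=
      (integrable_indicator_iff hWm).mpr (integrableOn_const hWfin)
    have h1 : I ≤ ∫ x, (W.indicator (fun _ => (1 : ℝ)) x + 8 / I * (w x * B x)) ∂μ := by
      rw [hIdef]
      apply integral_mono (hw.integrable μ)
      · exact hWi.add ((hwB.const_mul _).integrable μ)
      · intro x
        change w x ≤ W.indicator (fun _ => (1 : ℝ)) x + 8 / I * (w x * B x)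
        have h2 : 0 ≤ 8 / I * (w x * B x) :=
          mul_nonneg (by positivity) (mul_nonneg (hw01 x).1 (hB0 x))
        by_cases hx : x ∈ W
        · rw [Set.indicator_of_mem hx]
          linarith [(hw01 x).2]
        · rw [Set.indicator_of_notMem hx]
          by_cases hwx : 0 < w x
          · have h3 : I / 8 < B x := by
              by_contra hcon
              exact hx ⟨hwx, not_lt.mp hcon⟩
            have h4 : 1 ≤ 8 / I * B x := by
              rw [div_mul_eq_mul_div, le_div_iff₀ hI0]; linarith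
            have := mul_le_mul_of_nonneg_left h4 (hw01 x).1
            linarith
          · have h3 : w x = 0 := le_antisymm (not_lt.mp hwx) (hw01 x).1
            linarith
    rw [integral_add hWi ((hwB.const_mul _).integrable μ), integral_const_mul,
      integral_indicator hWm] at h1
    have h2 : ∫ x in W, (1 : ℝ) ∂μ = μ.real W := by simp
    rw [h2] at h1
    have h3 : 8 / I * ∫ x, w x * B x ∂μ ≤ 8 / I * (I ^ 2 / 16) :=
      mul_le_mul_of_nonneg_left hwBint (by positivity)
    have h4 : 8 / I * (I ^ 2 / 16) = I / 2 := by field_simp; ring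
    linarith
  -- the functions `m`, `Θ`
  set m : G → ℝ := fun p => l⁻¹ * conv μ u u p with hm
  have hmcc : CC m := (conv_cc (μ := μ) hu hu).const_mul _
  have hm0 : ∀ x, 0 ≤ m x := fun x =>
    mul_nonneg (by positivity) (conv_nonneg (fun x => (hu01 x).1) (fun x => (hu01 x).1) x)
  have hmi : ∀ x, m x⁻¹ = m x := fun x => by
    rw [hm]; simp only; rw [conv_symm hui]
  have hmint : ∫ x, m x ∂μ ≤ 128 * K ^ 3 * a / τ ^ 2 := by
    rw [hm, integral_const_mul, integral_conv hu hu]
    have hu0' : 0 ≤ ∫ y, u y ∂μ := integral_nonneg fun x => (hu01 x).1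
    have h1 : (∫ y, u y ∂μ) * ∫ y, u y ∂μ ≤ (K * a) * (K * a) :=
      mul_le_mul huint huint hu0' (by positivity)
    calc l⁻¹ * ((∫ y, u y ∂μ) * ∫ y, u y ∂μ) ≤ l⁻¹ * ((K * a) * (K * a)) :=
          mul_le_mul_of_nonneg_left h1 (by positivity)
      _ = 128 * K ^ 3 * a / τ ^ 2 := by rw [hl]; field_simp
  refine ⟨W, fun q => 2 / I * conv μ m m q, hWm, hWV, ?_, (conv_cc hmcc hmcc).const_mul _, ?_, ?_, ?_⟩
  · have : τ * a / (16 * K) = τ * a / (8 * K) / 2 := by field_simp; ring
    rw [this]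
    linarith
  · intro x
    exact mul_nonneg (by positivity) (conv_nonneg hm0 hm0 x)
  · intro x hx y hy
    change 1 ≤ 2 / I * conv μ m m (x⁻¹ * y)
    have e : conv μ m m (x⁻¹ * y) = ∫ b, m (x⁻¹ * b) * m (y⁻¹ * b) ∂μ := by
      unfold conv
      rw [← integral_mul_left_eq_self (fun b => m b * m (b⁻¹ * (x⁻¹ * y))) x⁻¹]
      congr 1
      ext b
      have e1 : (x⁻¹ * b)⁻¹ * (x⁻¹ * y) = (y⁻¹ * b)⁻¹ := by group
      rw [e1, hmi]
    have hcomp : ∀ c : G, CC fun b => m (c⁻¹ * b) := by
      intro c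
      refine CC.intro (hmcc.cont.comp (continuous_const.mul continuous_id))
        (hmcc.supp.isCompact.smul c) ?_
      intro z hz
      apply image_eq_zero_of_notMem_tsupport
      intro h
      apply hz
      rw [Set.mem_smul_set_iff_inv_smul_mem, smul_eq_mul]
      exact h
    have hprod : CC fun b => m (x⁻¹ * b) * m (y⁻¹ * b) :=
      CC.intro ((hcomp x).cont.mul (hcomp y).cont) (hcomp x).supp.isCompact fun z hz => by
        rw [image_eq_zero_of_notMem_tsupport hz, zero_mul]
    have hbw : ∀ c : G, CC fun b => bet μ u l c b * w b := fun c =>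
      CC.intro ((hbc.comp (continuous_const.prodMk continuous_id)).mul hw.cont)
        hw.supp.isCompact fun z hz => by
        rw [image_eq_zero_of_notMem_tsupport hz, mul_zero]
    have h1 : ∫ b, (w b - bet μ u l x b * w b - bet μ u l y b * w b) ∂μ ≤
        ∫ b, m (x⁻¹ * b) * m (y⁻¹ * b) ∂μ := by
      apply integral_mono
      · exact ((hw.integrable μ).sub ((hbw x).integrable μ)).sub ((hbw y).integrable μ)
      · exact hprod.integrable μ
      · intro b
        change w b - bet μ u l x b * w b - bet μ u l y b * w b ≤ m (x⁻¹ * b) * m (y⁻¹ * b)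
        have hs := one_sub_bet_le (μ := μ) hu hu01 hui l hl0 x b
        have ht := one_sub_bet_le (μ := μ) hu hu01 hui l hl0 y b
        have ms : conv μ u u (x⁻¹ * b) / l = m (x⁻¹ * b) := by rw [hm]; simp only; ring
        have mt : conv μ u u (y⁻¹ * b) / l = m (y⁻¹ * b) := by rw [hm]; simp only; ring
        rw [ms] at hs
        rw [mt] at ht
        have hs0 := bet_nonneg (μ := μ) u l x b
        have ht0 := bet_nonneg (μ := μ) u l y b
        set s := bet μ u l x b
        set t := bet μ u l y b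
        have p1 := hm0 (x⁻¹ * b)
        have p2 := hm0 (y⁻¹ * b)
        have hw1 := (hw01 b).2
        have hw2 := (hw01 b).1
        have key : 1 - s - t ≤ m (x⁻¹ * b) * m (y⁻¹ * b) := by
          by_cases h1s : s ≤ 1
          · by_cases h1t : t ≤ 1
            · have : (1 - s) * (1 - t) ≤ m (x⁻¹ * b) * m (y⁻¹ * b) :=
                mul_le_mul hs ht (by linarith) p1
              nlinarith
            · have : 0 ≤ m (x⁻¹ * b) * m (y⁻¹ * b) := mul_nonneg p1 p2
              linarith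
          · have : 0 ≤ m (x⁻¹ * b) * m (y⁻¹ * b) := mul_nonneg p1 p2
            linarith
        have hnn : 0 ≤ m (x⁻¹ * b) * m (y⁻¹ * b) := mul_nonneg p1 p2
        have e2 : w b - s * w b - t * w b = w b * (1 - s - t) := by ring
        rw [e2]
        by_cases h1 : 0 ≤ 1 - s - t
        · calc w b * (1 - s - t) ≤ 1 * (1 - s - t) := mul_le_mul_of_nonneg_right hw1 h1
            _ ≤ _ := by linarith
        · have : w b * (1 - s - t) ≤ 0 := mul_nonpos_of_nonneg_of_nonpos hw2 (by linarith)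
          linarith
    have hi1 : Integrable (fun b => w b - bet μ u l x b * w b) μ :=
      (hw.integrable μ).sub ((hbw x).integrable μ)
    rw [integral_sub hi1 ((hbw y).integrable μ),
      integral_sub (hw.integrable μ) ((hbw x).integrable μ)] at h1
    have hx2 : B x ≤ I / 8 := hx.2
    have hy2 : B y ≤ I / 8 := hy.2
    have hBx : ∫ b, bet μ u l x b * w b ∂μ = B x := rfl
    have hBy : ∫ b, bet μ u l y b * w b ∂μ = B y := rfl
    rw [hBx, hBy, ← e] at h1
    rw [div_mul_eq_mul_div, le_div_iff₀ hI0]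
    linarith
  · rw [integral_const_mul, integral_conv hmcc hmcc]
    have hm0' : 0 ≤ ∫ y, m y ∂μ := integral_nonneg hm0
    have h1 : (∫ y, m y ∂μ) * ∫ y, m y ∂μ ≤
        (128 * K ^ 3 * a / τ ^ 2) * (128 * K ^ 3 * a / τ ^ 2) :=
      mul_le_mul hmint hmint hm0' (by positivity)
    have h2 : 2 / I ≤ 16 * K / (τ * a) := by
      rw [div_le_div_iff₀ hI0 (by positivity)]
      have := hI
      rw [div_le_iff₀ (by positivity)] at this
      nlinarith
    calc 2 / I * ((∫ y, m y ∂μ) * ∫ y, m y ∂μ)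
        ≤ 16 * K / (τ * a) * ((128 * K ^ 3 * a / τ ^ 2) * (128 * K ^ 3 * a / τ ^ 2)) :=
          mul_le_mul h2 h1 (mul_nonneg hm0' hm0') (by positivity)
      _ = 262144 * K ^ 7 * a / τ ^ 5 := by field_simp; ring

/-- iterated convolution -/
noncomputable def iterConv (μ : Measure G) (θ T : G → ℝ) : ℕ → G → ℝ
  | 0 => T
  | s + 1 => conv μ θ (iterConv μ θ T s)

theorem iterConv_cc {θ T : G → ℝ} (hθ : CC θ) (hT : CC T) : ∀ s, CC (iterConv μ θ T s)
  | 0 => hT
  | s + 1 => conv_cc hθ (iterConv_cc hθ hT s)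

theorem iterConv_nonneg {θ T : G → ℝ} (hθ : ∀ x, 0 ≤ θ x) (hT : ∀ x, 0 ≤ T x) :
    ∀ s x, 0 ≤ iterConv μ θ T s x
  | 0, x => hT x
  | s + 1, x => conv_nonneg hθ (iterConv_nonneg hθ hT s) x

theorem integral_iterConv {θ T : G → ℝ} (hθ : CC θ) (hT : CC T) :
    ∀ s, ∫ x, iterConv μ θ T s x ∂μ = (∫ x, θ x ∂μ) ^ s * ∫ x, T x ∂μ
  | 0 => by simp [iterConv]
  | s + 1 => by
      have h : ∫ x, iterConv μ θ T (s + 1) x ∂μ = ∫ x, conv μ θ (iterConv μ θ T s) x ∂μ := rfl
      rw [h, integral_conv hθ (iterConv_cc hθ hT s), integral_iterConv hθ hT s]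
      ring

/-- the almost stabilizer -/
def stab (μ : Measure G) (W : Set G) (κ : ℝ) : Set G := {g | κ ≤ μ.real (W ∩ g • W)}

theorem stab_lower {W : Set G} (hWm : MeasurableSet W) (hWfin : μ W ≠ ⊤) {θ T : G → ℝ}
    (hθ : CC θ) (hT : CC T) (hθ0 : ∀ x, 0 ≤ θ x) (hT0 : ∀ x, 0 ≤ T x)
    (hθW : ∀ x ∈ W, ∀ y ∈ W, 1 ≤ θ (x⁻¹ * y)) (hTW : ∀ x ∈ W, 1 ≤ T x⁻¹) (κ : ℝ) (hκ : 0 ≤ κ) :
    ∀ s, ∀ δ ∈ (stab μ W κ) ^ s, ∀ w ∈ W, κ ^ s ≤ iterConv μ θ T s (w⁻¹ * δ) := by
  intro s
  induction s with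
  | zero =>
      intro δ hδ w hw
      rw [pow_zero, Set.mem_one] at hδ
      subst hδ
      rw [mul_one, pow_zero]
      exact hTW w hw
  | succ s ih =>
      intro δ hδ w hw
      rw [pow_succ'] at hδ
      obtain ⟨d, hd, δ', hδ', rfl⟩ := hδ
      have hcc := iterConv_cc (μ := μ) hθ hT s
      have e : iterConv μ θ T (s + 1) (w⁻¹ * (d * δ')) =
          ∫ b, θ (w⁻¹ * b) * iterConv μ θ T s (b⁻¹ * (d * δ')) ∂μ := by
        change conv μ θ (iterConv μ θ T s) (w⁻¹ * (d * δ')) = _
        unfold conv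
        rw [← integral_mul_left_eq_self
          (fun b => θ b * iterConv μ θ T s (b⁻¹ * (w⁻¹ * (d * δ')))) w⁻¹]
        congr 1
        ext b
        have e1 : (w⁻¹ * b)⁻¹ * (w⁻¹ * (d * δ')) = b⁻¹ * (d * δ') := by group
        rw [e1]
      change κ ^ (s + 1) ≤ iterConv μ θ T (s + 1) (w⁻¹ * (d * δ'))
      rw [e]
      have hm : MeasurableSet (W ∩ d • W) := hWm.inter (hWm.const_smul d)
      have hfin : μ (W ∩ d • W) ≠ ⊤ := ne_top_of_le_ne_top hWfin (measure_mono Set.inter_subset_left)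
      have hd' : κ ≤ μ.real (W ∩ d • W) := hd
      calc κ ^ (s + 1) = κ ^ s * κ := pow_succ _ _
        _ ≤ κ ^ s * μ.real (W ∩ d • W) := mul_le_mul_of_nonneg_left hd' (by positivity)
        _ = ∫ b, (W ∩ d • W).indicator (fun _ => κ ^ s) b ∂μ := by
            rw [integral_indicator hm]; simp [mul_comm]
        _ ≤ _ := by
            apply integral_mono
            · exact (integrable_indicator_iff hm).mpr (integrableOn_const hfin)
            · refine CC.integrable μ (CC.intro ((hθ.cont.comp (continuous_const.mul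
                continuous_id)).mul (hcc.cont.comp (continuous_inv.mul continuous_const)))
                (hθ.supp.isCompact.smul w) ?_)
              intro z hz
              have : w⁻¹ * z ∉ tsupport θ := by
                intro h
                apply hz
                rw [Set.mem_smul_set_iff_inv_smul_mem, smul_eq_mul]
                exact h
              change θ (w⁻¹ * z) * _ = 0
              rw [image_eq_zero_of_notMem_tsupport this, zero_mul]
            · intro b
              by_cases hb : b ∈ W ∩ d • W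
              · rw [Set.indicator_of_mem hb]
                have h1 := hθW w hw b hb.1
                have h2 : d⁻¹ * b ∈ W := by
                  have := hb.2
                  rwa [Set.mem_smul_set_iff_inv_smul_mem, smul_eq_mul] at this
                have h3 := ih δ' hδ' _ h2
                have e3 : (d⁻¹ * b)⁻¹ * δ' = b⁻¹ * (d * δ') := by group
                rw [e3] at h3
                change κ ^ s ≤ θ (w⁻¹ * b) * iterConv μ θ T s (b⁻¹ * (d * δ'))
                have h4 : 0 ≤ κ ^ s := by positivity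
                calc κ ^ s = 1 * κ ^ s := (one_mul _).symm
                  _ ≤ _ := mul_le_mul h1 h3 h4 (by linarith)
              · rw [Set.indicator_of_notMem hb]
                exact mul_nonneg (hθ0 _) (iterConv_nonneg hθ0 hT0 s _)

/-- **Step D.** -/
theorem stab_pow_measure {W : Set G} (hWm : MeasurableSet W) (hWfin : μ W ≠ ⊤) (hWne : W.Nonempty)
    {θ T : G → ℝ} (hθ : CC θ) (hT : CC T) (hθ0 : ∀ x, 0 ≤ θ x) (hT0 : ∀ x, 0 ≤ T x)
    (hθW : ∀ x ∈ W, ∀ y ∈ W, 1 ≤ θ (x⁻¹ * y)) (hTW : ∀ x ∈ W, 1 ≤ T x⁻¹) (κ : ℝ) (hκ : 0 < κ)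
    (s : ℕ) : μ ((stab μ W κ) ^ s) ≤
      ENNReal.ofReal ((∫ x, θ x ∂μ) ^ s * (∫ x, T x ∂μ) / κ ^ s) := by
  obtain ⟨w, hw⟩ := hWne
  have hcc := iterConv_cc (μ := μ) hθ hT s
  have hκs : 0 < κ ^ s := by positivity
  have hsub : w⁻¹ • (stab μ W κ) ^ s ⊆ {x | κ ^ s ≤ iterConv μ θ T s x} := by
    intro z hz
    rw [Set.mem_smul_set_iff_inv_smul_mem, smul_eq_mul, inv_inv] at hz
    have := stab_lower (μ := μ) hWm hWfin hθ hT hθ0 hT0 hθW hTW κ hκ.le s _ hz w hw
    have e : w⁻¹ * (w * z) = z := by group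
    rwa [e] at this
  have hmk := mul_meas_ge_le_integral_of_nonneg
    (Filter.Eventually.of_forall (iterConv_nonneg (μ := μ) hθ0 hT0 s)) (hcc.integrable μ) (κ ^ s)
  rw [integral_iterConv hθ hT s] at hmk
  have hfin : μ {x | κ ^ s ≤ iterConv μ θ T s x} < ⊤ :=
    Integrable.measure_ge_lt_top (hcc.integrable μ) hκs
  calc μ ((stab μ W κ) ^ s) = μ (w⁻¹ • (stab μ W κ) ^ s) := (measure_smul _ _ _).symm
    _ ≤ μ {x | κ ^ s ≤ iterConv μ θ T s x} := measure_mono hsub
    _ = ENNReal.ofReal (μ.real {x | κ ^ s ≤ iterConv μ θ T s x}) := by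
        rw [Measure.real, ENNReal.ofReal_toReal hfin.ne]
    _ ≤ _ := by
        apply ENNReal.ofReal_le_ofReal
        rw [le_div_iff₀ hκs]
        linarith

end Pool.Agent.H98.Growth
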