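import Pool.Agent.H98.Growth.Chain

/-!
# Growth of balls: from `(1+ε) n` to `3 n` when `K (1 - 2 ε) < 1`
-/

set_option autoImplicit false

open MeasureTheory Set
open scoped Pointwise

namespace Pool.Agent.H98.Growth

universe v

theorem main (K ε : ℝ) (hK : 1 ≤ K) (hε : 0 < ε) (hKε : K * (1 - 2 * ε) < 1) :
    ∃ (n₀ : ℕ) (C : ℝ), ∀ (G : Type v) [Group G] [TopologicalSpace G] [IsTopologicalGroup G]
      [LocallyCompactSpace G] [MeasurableSpace G] [BorelSpace G] (μ : Measure G)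
      [μ.IsHaarMeasure] [μ.InnerRegularCompactLTTop] (S : Set G), IsOpen S →
      IsCompact (closure S) → S⁻¹ = S → (1 : G) ∈ S → ∀ n : ℕ, n₀ ≤ n →
      μ (S ^ ⌈(1 + ε) * n⌉₊) ≤ ENNReal.ofReal K * μ (S ^ n) →
      μ (S ^ (3 * n)) ≤ ENNReal.ofReal C * μ (S ^ n) := by
  obtain ⟨n₁, τ, hn₁, hτ, hτ1, hover⟩ := exists_overlap.{v} K ε hK hε hKε
  have hK0 : 0 < K := by linarith
  -- the packing number
  set N : ℕ := ⌊32 * K ^ 2 / τ⌋₊ + 1 with hN
  have hN1 : 1 ≤ N := by omega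
  have hNlt : 32 * K ^ 2 / τ < N := by
    rw [hN]; push_cast; exact Nat.lt_floor_add_one _
  have hNpos : (0 : ℝ) < N := by exact_mod_cast hN1
  set T : ℕ := ⌈6 * N / ε⌉₊ + 1 with hT
  have hTle : 6 * N / ε ≤ T := by
    rw [hT]; push_cast
    linarith [Nat.le_ceil (6 * (N : ℝ) / ε)]
  obtain ⟨n₂, hn₂⟩ := exists_nat_ge ((N : ℝ) / ε)
  refine ⟨max n₁ n₂, N * ((8388608 * K ^ 8 * N / τ ^ 6) ^ T * K), ?_⟩
  intro G _ _ _ _ _ _ μ _ _ S hSo hSc hSi h1 n hn hle
  have hnn₁ : n₁ ≤ n := (le_max_left _ _).trans hn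
  have hnn₂ : n₂ ≤ n := (le_max_right _ _).trans hn
  have hn1 : 1 ≤ n := hn₁.trans hnn₁
  have hn0 : (0 : ℝ) < n := by exact_mod_cast hn1
  set R : ℕ := ⌈(1 + ε) * n⌉₊ with hR
  have hRle : (1 + ε) * n ≤ R := Nat.le_ceil _
  have hnR : n < R := by
    have : (n : ℝ) < R := by nlinarith
    exact_mod_cast this
  obtain ⟨e, he⟩ : ∃ e, R = n + e := ⟨R - n, by omega⟩
  have he1 : 1 ≤ e := by omega
  have heε : ε * n ≤ e := by
    rw [he] at hRle; push_cast at hRle; linarith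
  have hfinU := (pow_measure_lt_top (μ := μ) S hSc R).ne
  have hfinV := (pow_measure_lt_top (μ := μ) S hSc n).ne
  have hVpos : 0 < μ.real (S ^ n) :=
    ENNReal.toReal_pos ((pow_isOpen S hSo n hn1).measure_pos μ ⟨1, Set.one_mem_pow h1⟩).ne' hfinV
  set a : ℝ := μ.real (S ^ n) with ha
  have hUK : μ.real (S ^ R) ≤ K * a := by
    have := ENNReal.toReal_mono (ENNReal.mul_ne_top ENNReal.ofReal_ne_top hfinV) hle
    rwa [ENNReal.toReal_mul, ENNReal.toReal_ofReal hK0.le] at this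
  have hov := hover G μ S hSo hSc hSi h1 n R hnn₁ hRle hUK
  have hmono : ∀ a b, a ≤ b → S ^ a ⊆ S ^ b := fun a b hab => Set.pow_subset_pow_right h1 hab
  have hUc : IsCompact (closure (S ^ R)) := by
    obtain ⟨C, hC, hsub⟩ := pow_subset_compact S hSc R
    exact hC.closure.of_isClosed_subset isClosed_closure (closure_mono hsub)
  have hUo := pow_isOpen S hSo R (by omega)
  have hVo := pow_isOpen S hSo n hn1
  obtain ⟨W, θ, hWm, hWV, hWa, hθ, hθ0, hθW, hθint⟩ := exists_core (μ := μ) (S ^ R) (S ^ n)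
    hUo hUc (pow_inv_eq S hSi R) hVo (hmono _ _ hnR.le) K τ hK hτ hVpos hUK hov
  have hWfin : μ W ≠ ⊤ := ne_top_of_le_ne_top hfinV (measure_mono hWV)
  have hWpos : 0 < μ.real W := lt_of_lt_of_le (by positivity) hWa
  have hWne : W.Nonempty := by
    by_contra hcon
    rw [Set.not_nonempty_iff_eq_empty] at hcon
    rw [hcon] at hWpos
    simp at hWpos
  -- the function `T₀`
  have hclV : closure (S ^ n) ⊆ S ^ R := by
    intro x hx
    have h2 : x ∈ S * closure (S ^ n) := ⟨1, h1, x, hx, one_mul x⟩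
    rw [hSo.mul_closure, ← pow_succ'] at h2
    exact hmono _ _ (by omega) h2
  have hclVc : IsCompact (closure (S ^ n)) :=
    hUc.of_isClosed_subset isClosed_closure (hclV.trans subset_closure)
  obtain ⟨f, hf1, hf0, _, hf01⟩ := exists_continuous_one_zero_of_isCompact hclVc
    hUo.isClosed_compl (Set.disjoint_compl_right_iff_subset.mpr hclV)
  have hfcc : CC (fun x => f x) := CC.intro f.continuous hUc fun x hx =>
    hf0 (fun h => hx (subset_closure h))
  have hfint : ∫ x, f x ∂μ ≤ K * a := by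
    refine le_trans ?_ hUK
    have e : μ.real (S ^ R) = ∫ x, (S ^ R).indicator (fun _ => (1 : ℝ)) x ∂μ := by
      rw [integral_indicator hUo.measurableSet]; simp
    rw [e]
    apply integral_mono (hfcc.integrable μ)
    · exact (integrable_indicator_iff hUo.measurableSet).mpr (integrableOn_const hfinU)
    · intro x
      by_cases hx : x ∈ S ^ R
      · rw [Set.indicator_of_mem hx]; exact (hf01 x).2
      · rw [Set.indicator_of_notMem hx]
        exact (hf0 hx).le
  have hfW : ∀ x ∈ W, 1 ≤ f x⁻¹ := by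
    intro x hx
    have : x⁻¹ ∈ closure (S ^ n) := by
      apply subset_closure
      rw [← pow_inv_eq S hSi]
      exact Set.inv_mem_inv.mpr (hWV hx)
    exact (hf1 this).ge
  -- the almost stabilizer
  obtain ⟨κ, hκ⟩ : ∃ κ : ℝ, κ = μ.real W / (2 * N) := ⟨_, rfl⟩
  have hκ0 : 0 < κ := by rw [hκ]; positivity
  have hκa : τ * a / (32 * K * N) ≤ κ := by
    rw [hκ, div_le_div_iff₀ (by positivity) (by positivity)]
    rw [div_le_iff₀ (by positivity)] at hWa
    nlinarith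
  have hκW : κ ≤ μ.real W := by
    rw [hκ]
    apply div_le_self hWpos.le
    have : (1 : ℝ) ≤ N := by exact_mod_cast hN1
    linarith
  have hD := stab_pow_measure (μ := μ) hWm hWfin hWne hθ hfcc hθ0 (fun x => (hf01 x).1) hθW hfW
    κ hκ0
  -- packing
  have hpack : ∀ F : Finset G, (F : Set G) ⊆ S ^ e → Sep (stab μ W κ) F → F.card < N := by
    intro F hFS hFsep
    by_contra hcon
    push Not at hcon
    obtain ⟨F', hF'F, hF'c⟩ := Finset.exists_subset_card_eq hcon
    have hp := packing (μ := μ) hWm hWfin κ hκ0.le F' (by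
      intro x hx y hy hxy
      have h2 := hFsep x (hF'F hx) y (hF'F hy) hxy
      have h3 : ¬ κ ≤ μ.real (W ∩ (x⁻¹ * y) • W) := h2
      have e1 : x • (W ∩ (x⁻¹ * y) • W) = x • W ∩ y • W := by
        rw [Set.smul_set_inter, smul_smul]
        congr 2
        group
      rw [← e1, real_smul]
      exact (not_le.mp h3).le)
    have hsub : (⋃ x ∈ F', x • W) ⊆ S ^ R := by
      intro z hz
      rw [Set.mem_iUnion₂] at hz
      obtain ⟨x, hx, hz⟩ := hz
      obtain ⟨w, hw, rfl⟩ := Set.mem_smul_set.mp hz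
      rw [he, add_comm, pow_add]
      exact Set.mul_mem_mul (hFS (hF'F hx)) (hWV hw)
    have h4 : μ.real (⋃ x ∈ F', x • W) ≤ K * a :=
      (measureReal_mono hsub hfinU).trans hUK
    rw [hF'c] at hp
    have h5 : (N : ℝ) ^ 2 * κ = N * μ.real W / 2 := by
      rw [hκ]; field_simp
    rw [h5] at hp
    have h6 : N * μ.real W ≤ 2 * (K * a) := by linarith
    have h7 : (N : ℝ) * (τ * a / (16 * K)) ≤ 2 * (K * a) :=
      (mul_le_mul_of_nonneg_left hWa hNpos.le).trans h6
    have h8 : (32 * K ^ 2 / τ) * (τ * a / (16 * K)) = 2 * (K * a) := by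
      field_simp; ring
    have h9 : (32 * K ^ 2 / τ) * (τ * a / (16 * K)) < N * (τ * a / (16 * K)) :=
      mul_lt_mul_of_pos_right hNlt (by positivity)
    linarith
  -- the chain
  set m : ℕ := e / N with hm
  have hmN : m * N ≤ e := Nat.div_mul_le_self e N
  obtain ⟨j, F, hFN, hchain⟩ := chain S (stab μ W κ) h1 (one_mem_stab hκW)
    (fun g hg => inv_mem_stab hg) N m (fun F hF hs => hpack F (hF.trans (hmono _ _ hmN)) hs)
  have hNe : (N : ℝ) ≤ e := by
    have h2 : (N : ℝ) / ε ≤ n := hn₂.trans (by exact_mod_cast hnn₂)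
    rw [div_le_iff₀ hε] at h2
    linarith
  have hm1 : 1 ≤ m := by
    rw [hm]
    exact (Nat.one_le_div_iff hN1).mpr (by exact_mod_cast hNe)
  have hm2 : (e : ℝ) ≤ 2 * (m * N) := by
    have h2 : e < m * N + N := by
      have := Nat.lt_div_mul_add (a := e) (b := N) hN1
      rwa [hm]
    have h3 : N ≤ m * N := Nat.le_mul_of_pos_left N hm1
    have h4 : e ≤ 2 * (m * N) := by omega
    exact_mod_cast h4
  have h3n : 3 * n ≤ m * (j + T) := by
    have h2 : (3 : ℝ) * n ≤ m * T := by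
      have h3 : 6 * N ≤ T * ε := by rwa [div_le_iff₀ hε] at hTle
      -- `3 n ≤ 3 e / ε ≤ 6 m N / ε ≤ m T`
      have h4 : ε * n ≤ 2 * (m * N) := heε.trans hm2
      have h5 : ε * (3 * n) ≤ ε * (m * T) := by
        have hm0 : (0 : ℝ) ≤ m := Nat.cast_nonneg _
        have := mul_le_mul_of_nonneg_left h3 hm0
        nlinarith
      exact le_of_mul_le_mul_left h5 hε
    have h3 : 3 * n ≤ m * T := by exact_mod_cast h2
    calc 3 * n ≤ m * T := h3
      _ ≤ m * (j + T) := Nat.mul_le_mul_left m (by omega)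
  have hfinal : S ^ (3 * n) ⊆ ⋃ x ∈ F, x • (stab μ W κ) ^ T := by
    intro z hz
    obtain ⟨x, hx, y, hy, rfl⟩ := hchain T (by omega) (hmono _ _ h3n hz)
    rw [Set.mem_iUnion₂]
    exact ⟨x, hx, Set.smul_mem_smul_set hy⟩
  have hθint0 : 0 ≤ ∫ x, θ x ∂μ := integral_nonneg hθ0
  have hfint0 : 0 ≤ ∫ x, f x ∂μ := integral_nonneg fun x => (hf01 x).1
  have hbound : (∫ x, θ x ∂μ) ^ T * (∫ x, f x ∂μ) / κ ^ T ≤
      (8388608 * K ^ 8 * N / τ ^ 6) ^ T * K * a := by
    have h2 : (∫ x, θ x ∂μ) ^ T * (∫ x, f x ∂μ) / κ ^ T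
        = ((∫ x, θ x ∂μ) / κ) ^ T * (∫ x, f x ∂μ) := by
      rw [div_pow, mul_div_right_comm]
    have h3 : (∫ x, θ x ∂μ) / κ ≤ 8388608 * K ^ 8 * N / τ ^ 6 := by
      rw [div_le_iff₀ hκ0]
      calc ∫ x, θ x ∂μ ≤ 262144 * K ^ 7 * a / τ ^ 5 := hθint
        _ = 8388608 * K ^ 8 * N / τ ^ 6 * (τ * a / (32 * K * N)) := by field_simp; ring
        _ ≤ _ := mul_le_mul_of_nonneg_left hκa (by positivity)
    rw [h2, mul_assoc]
    exact mul_le_mul (pow_le_pow_left₀ (div_nonneg hθint0 hκ0.le) h3 T) hfint hfint0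
      (by positivity)
  calc μ (S ^ (3 * n)) ≤ μ (⋃ x ∈ F, x • (stab μ W κ) ^ T) := measure_mono hfinal
    _ ≤ ∑ x ∈ F, μ (x • (stab μ W κ) ^ T) := measure_biUnion_finset_le F _
    _ = F.card * μ ((stab μ W κ) ^ T) := by
        simp_rw [measure_smul]
        rw [Finset.sum_const, nsmul_eq_mul]
    _ ≤ N * μ ((stab μ W κ) ^ T) := by
        gcongr
    _ ≤ N * ENNReal.ofReal ((8388608 * K ^ 8 * N / τ ^ 6) ^ T * K * a) := by
        gcongr
        exact (hD T).trans (ENNReal.ofReal_le_ofReal hbound)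
    _ = ENNReal.ofReal (N * ((8388608 * K ^ 8 * N / τ ^ 6) ^ T * K)) * μ (S ^ n) := by
        have e1 : μ (S ^ n) = ENNReal.ofReal a := by
          rw [ha, Measure.real, ENNReal.ofReal_toReal hfinV]
        rw [e1, ← ENNReal.ofReal_mul (by positivity)]
        have e2 : (N : ENNReal) = ENNReal.ofReal (N : ℝ) := by
          rw [ENNReal.ofReal_natCast]
        rw [e2, ← ENNReal.ofReal_mul hNpos.le]
        congr 1
        ring

end Pool.Agent.H98.Growth
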