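import Mathlib

/-!
# Overlap of translates of balls

`G` a locally compact group with a left Haar measure, `S` an open precompact symmetric set with
`1 ∈ S`, `f k = μ (S ^ k)`.  If `f ⌈(1+ε) n⌉ ≤ K f n` with `K (1 - 2 ε) < 1` and `n` is large, then
`U = S ^ ⌈(1+ε) n⌉` meets all its translates `x U`, `x ∈ S ^ n`, in measure at least `τ f n`.
-/

set_option autoImplicit false

open MeasureTheory Set
open scoped Pointwise

namespace Pool.Agent.H98.Growth

variable {G : Type*} [Group G] [TopologicalSpace G] [IsTopologicalGroup G]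
  [MeasurableSpace G] [BorelSpace G] {μ : Measure G}

/-- powers of a precompact set have finite measure -/
theorem pow_subset_compact (S : Set G) (hS : IsCompact (closure S)) (k : ℕ) :
    ∃ C : Set G, IsCompact C ∧ S ^ k ⊆ C := by
  induction k with
  | zero => exact ⟨{1}, isCompact_singleton, by simp⟩
  | succ k ih =>
      obtain ⟨C, hC, h⟩ := ih
      refine ⟨C * closure S, hC.mul hS, ?_⟩
      rw [pow_succ]
      exact Set.mul_subset_mul h subset_closure

theorem pow_measure_lt_top [IsFiniteMeasureOnCompacts μ] (S : Set G)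
    (hS : IsCompact (closure S)) (k : ℕ) : μ (S ^ k) < ⊤ := by
  obtain ⟨C, hC, h⟩ := pow_subset_compact S hS k
  exact (measure_mono h).trans_lt hC.measure_lt_top

theorem pow_isOpen (S : Set G) (hS : IsOpen S) (k : ℕ) (hk : 1 ≤ k) : IsOpen (S ^ k) := by
  obtain ⟨j, rfl⟩ : ∃ j, k = j + 1 := ⟨k - 1, by omega⟩
  rw [pow_succ]
  exact hS.mul_left

theorem pow_inv_eq (S : Set G) (hS : S⁻¹ = S) (k : ℕ) : (S ^ k)⁻¹ = S ^ k := by
  rw [← inv_pow, hS]

theorem real_smul [μ.IsMulLeftInvariant] (x : G) (A : Set G) : μ.real (x • A) = μ.real A := by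
  unfold Measure.real
  rw [measure_smul]

variable [μ.IsHaarMeasure]

/-- defect of invariance is subadditive -/
theorem defect_mul (A : Set G) (hA : MeasurableSet A) (hfin : μ A < ⊤) (x y : G) :
    μ.real ((x * y) • A \ A) ≤ μ.real (x • A \ A) + μ.real (y • A \ A) := by
  have hsub : (x * y) • A \ A ⊆ (x • A \ A) ∪ x • (y • A \ A) := by
    rintro z ⟨hz1, hz2⟩
    by_cases h : z ∈ x • A
    · exact Or.inl ⟨h, hz2⟩
    · refine Or.inr ?_
      rw [Set.mem_smul_set_iff_inv_smul_mem]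
      refine ⟨?_, ?_⟩
      · rw [mul_smul, Set.mem_smul_set_iff_inv_smul_mem] at hz1
        exact hz1
      · intro h'
        exact h (Set.mem_smul_set_iff_inv_smul_mem.mpr h')
  have f1 : μ (x • A \ A) ≠ ⊤ := by
    refine ((measure_mono Set.sdiff_subset).trans_lt ?_).ne
    rw [measure_smul]; exact hfin
  have f2 : μ (x • (y • A \ A)) ≠ ⊤ := by
    rw [measure_smul]
    refine ((measure_mono Set.sdiff_subset).trans_lt ?_).ne
    rw [measure_smul]; exact hfin
  calc μ.real ((x * y) • A \ A) ≤ μ.real ((x • A \ A) ∪ x • (y • A \ A)) :=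
        measureReal_mono hsub (measure_union_ne_top f1 f2)
    _ ≤ μ.real (x • A \ A) + μ.real (x • (y • A \ A)) := measureReal_union_le _ _
    _ = _ := by rw [real_smul]

/-- two letters move a ball into the next ball, up to translation -/
theorem defect_two (S : Set G) (hSo : IsOpen S) (hSc : IsCompact (closure S)) (hSi : S⁻¹ = S)
    (h1 : (1 : G) ∈ S) (r : ℕ) (hr : 1 ≤ r) (x : G) (hx : x ∈ S ^ 2) :
    μ.real (x • (S ^ r) \ S ^ r) ≤ μ.real (S ^ (r + 1)) - μ.real (S ^ r) := by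
  rw [pow_two] at hx
  obtain ⟨a, ha, b, hb, rfl⟩ := hx
  have hsub : (a * b) • (S ^ r) ∪ S ^ r ⊆ a • (S ^ (r + 1)) := by
    rintro z (hz | hz)
    · rw [mul_smul] at hz
      rw [Set.mem_smul_set_iff_inv_smul_mem] at hz ⊢
      rw [Set.mem_smul_set] at hz
      obtain ⟨w, hw, hwz⟩ := hz
      rw [← hwz, pow_succ']
      exact Set.mul_mem_mul hb hw
    · rw [Set.mem_smul_set_iff_inv_smul_mem, pow_succ']
      refine Set.mul_mem_mul ?_ hz
      rw [← hSi]
      exact Set.inv_mem_inv.mpr ha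
  have hop := (pow_isOpen S hSo r hr).measurableSet
  have hfin : μ ((a * b) • (S ^ r) ∪ S ^ r) ≠ ⊤ := by
    refine measure_union_ne_top ?_ (pow_measure_lt_top S hSc r).ne
    rw [measure_smul]; exact (pow_measure_lt_top S hSc r).ne
  have h2 : μ.real ((a * b) • (S ^ r) ∪ S ^ r)
      = μ.real ((a * b) • (S ^ r) \ S ^ r) + μ.real (S ^ r) := by
    rw [← Set.sdiff_union_self]
    rw [measureReal_union (Set.disjoint_sdiff_left) hop ?_ (pow_measure_lt_top S hSc r).ne]
    exact ne_top_of_le_ne_top hfin (measure_mono (Set.sdiff_subset.trans Set.subset_union_left))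
  have h3 : μ.real ((a * b) • (S ^ r) ∪ S ^ r) ≤ μ.real (S ^ (r + 1)) := by
    rw [← real_smul (μ := μ) a (S ^ (r + 1))]
    refine measureReal_mono hsub ?_
    rw [measure_smul]; exact (pow_measure_lt_top S hSc _).ne
  linarith

theorem defect_pow (S : Set G) (hSo : IsOpen S) (hSc : IsCompact (closure S)) (hSi : S⁻¹ = S)
    (h1 : (1 : G) ∈ S) (r : ℕ) (hr : 1 ≤ r) (k : ℕ) : ∀ x ∈ S ^ (2 * k),
    μ.real (x • (S ^ r) \ S ^ r) ≤ k * (μ.real (S ^ (r + 1)) - μ.real (S ^ r)) := by
  induction k with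
  | zero =>
      intro x hx
      simp only [mul_zero, pow_zero, Set.mem_one] at hx
      subst hx
      simp
  | succ k ih =>
      intro x hx
      rw [mul_add, mul_one, pow_add] at hx
      obtain ⟨a, ha, b, hb, rfl⟩ := hx
      have h2 := defect_mul (μ := μ) (S ^ r) (pow_isOpen S hSo r hr).measurableSet
        (pow_measure_lt_top S hSc r) a b
      have h3 := ih a ha
      have h4 := defect_two (μ := μ) S hSo hSc hSi h1 r hr b hb
      push_cast
      have h5 : μ.real ((fun x1 x2 => x1 * x2) a b • S ^ r \ S ^ r)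
          = μ.real ((a * b) • S ^ r \ S ^ r) := rfl
      rw [h5]
      linarith

/-- overlap of translates by long words -/
theorem overlap_long (S : Set G) (hSo : IsOpen S) (hSc : IsCompact (closure S)) (hSi : S⁻¹ = S)
    (h1 : (1 : G) ∈ S) (r : ℕ) (hr : 1 ≤ r) (k h : ℕ) (x : G) (hx : x ∈ S ^ (2 * k + 2 * h)) :
    μ.real (S ^ r) - k * (μ.real (S ^ (r + 1)) - μ.real (S ^ r)) ≤
      μ.real (x • S ^ (r + h) ∩ S ^ (r + h)) := by
  have e : 2 * k + 2 * h = h + 2 * k + h := by ring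
  rw [e, pow_add, pow_add] at hx
  obtain ⟨y, ⟨a, ha, b, hb, rfl⟩, c, hc, rfl⟩ := hx
  simp only
  have hsub : a • (S ^ r ∩ b • S ^ r) ⊆ (a * b * c) • S ^ (r + h) ∩ S ^ (r + h) := by
    rintro z hz
    obtain ⟨w, ⟨hw1, hw2⟩, rfl⟩ := Set.mem_smul_set.mp hz
    obtain ⟨v, hv, rfl⟩ := Set.mem_smul_set.mp hw2
    constructor
    · rw [Set.mem_smul_set_iff_inv_smul_mem, add_comm r h, pow_add]
      have e2 : (a * b * c)⁻¹ • a • b • v = c⁻¹ * v := by
        simp only [smul_eq_mul]; group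
      rw [e2]
      refine Set.mul_mem_mul ?_ hv
      rw [← pow_inv_eq S hSi]
      exact Set.inv_mem_inv.mpr hc
    · rw [add_comm r h, pow_add]
      exact Set.mul_mem_mul ha hw1
  have hm := (pow_isOpen S hSo r hr).measurableSet (α := G)
  have hfr := (pow_measure_lt_top (μ := μ) S hSc r).ne
  have h2 : μ.real (S ^ r ∩ b • S ^ r) ≤ μ.real ((a * b * c) • S ^ (r + h) ∩ S ^ (r + h)) := by
    rw [← real_smul (μ := μ) a (S ^ r ∩ b • S ^ r)]
    exact measureReal_mono hsub (ne_top_of_le_ne_top (pow_measure_lt_top S hSc (r + h)).ne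
      (measure_mono Set.inter_subset_right))
  have h3 : μ.real (S ^ r) = μ.real (S ^ r ∩ b • S ^ r) + μ.real (S ^ r \ b • S ^ r) :=
    (measureReal_inter_add_sdiff (hm.const_smul b) hfr).symm
  have h4 : μ.real (S ^ r \ b • S ^ r) = μ.real (b⁻¹ • S ^ r \ S ^ r) := by
    rw [← real_smul (μ := μ) b⁻¹ (S ^ r \ b • S ^ r)]
    congr 1
    rw [Set.smul_set_sdiff, inv_smul_smul]
  have hb' : b⁻¹ ∈ S ^ (2 * k) := by
    rw [← pow_inv_eq S hSi]
    exact Set.inv_mem_inv.mpr hb
  have h5 := defect_pow (μ := μ) S hSo hSc hSi h1 r hr k b⁻¹ hb'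
  linarith

/-- **Step A.** -/
theorem exists_overlap (K ε : ℝ) (hK : 1 ≤ K) (hε : 0 < ε) (hKε : K * (1 - 2 * ε) < 1) :
    ∃ (n₀ : ℕ) (τ : ℝ), 1 ≤ n₀ ∧ 0 < τ ∧ τ ≤ 1 ∧
      ∀ (G : Type*) [Group G] [TopologicalSpace G] [IsTopologicalGroup G]
        [MeasurableSpace G] [BorelSpace G] (μ : Measure G) [μ.IsHaarMeasure]
        (S : Set G) (_ : IsOpen S) (_ : IsCompact (closure S)) (_ : S⁻¹ = S)
        (_ : (1 : G) ∈ S) (n R : ℕ) (_ : n₀ ≤ n) (_ : (1 + ε) * n ≤ R)
        (_ : μ.real (S ^ R) ≤ K * μ.real (S ^ n)),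
        ∀ x ∈ S ^ n, τ * μ.real (S ^ n) ≤ μ.real (x • S ^ R ∩ S ^ R) := by
  set δ : ℝ := (1 - K * (1 - 2 * ε)) / 2 with hδ
  have hδ0 : 0 < δ := by rw [hδ]; linarith
  set ρ : ℝ := K + δ with hρ
  have hρK : K < ρ := by rw [hρ]; linarith
  have hρ1 : 1 < ρ := by linarith
  have hρε : ρ * (1 - 2 * ε) < 1 := by
    rw [hρ, add_mul]
    have h1 : δ * (1 - 2 * ε) ≤ δ * 1 := by
      apply mul_le_mul_of_nonneg_left _ hδ0.le
      linarith
    have h2 : δ < 1 - K * (1 - 2 * ε) := by rw [hδ]; linarith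
    linarith
  set τ : ℝ := (ρ - K) / ρ with hτ
  have hρ0 : 0 < ρ := by linarith
  have hτ0 : 0 < τ := div_pos (by linarith) hρ0
  have hτ1 : τ < 1 := by
    rw [hτ, div_lt_one hρ0]; linarith
  have hτρ : K - τ ≤ ρ * (1 - τ) := by
    have : τ * ρ = ρ - K := by rw [hτ]; field_simp
    nlinarith
  obtain ⟨n₀, hn₀⟩ := exists_nat_gt (max 1 ((ρ - 1) / (1 - ρ * (1 - 2 * ε))))
  have hn₀1 : 1 ≤ n₀ := by exact_mod_cast (le_max_left _ _).trans hn₀.le
  refine ⟨n₀, τ, hn₀1, hτ0, hτ1.le, ?_⟩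
  intro G _ _ _ _ _ μ _ S hSo hSc hSi h1 n R hn hR hf x hx
  have hn1 : 1 ≤ n := hn₀1.trans hn
  have hnR : n ≤ R := by
    have : (n : ℝ) ≤ R := by
      have : (0 : ℝ) ≤ n := by positivity
      nlinarith
    exact_mod_cast this
  obtain ⟨e, rfl⟩ : ∃ e, R = n + e := ⟨R - n, by omega⟩
  have he : ε * n ≤ e := by push_cast at hR; linarith
  have he0 : 1 ≤ e := by
    have h0 : (0 : ℝ) < n := by exact_mod_cast hn1
    have : (0 : ℝ) < e := lt_of_lt_of_le (by positivity) he
    exact_mod_cast this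
  set q : ℕ := (n + 1) / 2 with hq
  have hq2 : n ≤ 2 * q := by omega
  have hq3 : 2 * q ≤ n + 1 := by omega
  set f : ℕ → ℝ := fun k => μ.real (S ^ k) with hfdef
  have hfpos : 0 < f n := by
    have := (pow_isOpen S hSo n hn1).measure_pos μ ⟨1, Set.one_mem_pow h1⟩
    exact ENNReal.toReal_pos this.ne' (pow_measure_lt_top S hSc n).ne
  have hmono : ∀ a b, a ≤ b → x ∈ S ^ a → x ∈ S ^ b := fun a b hab h =>
    Set.pow_subset_pow_right h1 hab h
  have goal : ∀ r k h, 1 ≤ r → n ≤ 2 * k + 2 * h → r + h = n + e →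
      k * (f (r + 1) - f r) ≤ f r - τ * f n → τ * f n ≤ μ.real (x • S ^ (n + e) ∩ S ^ (n + e)) := by
    intro r k h hr hkh hrh hle
    have := overlap_long (μ := μ) S hSo hSc hSi h1 r hr k h x (hmono _ _ hkh hx)
    rw [hrh] at this
    have h2 : f r - k * (f (r + 1) - f r) ≤ μ.real (x • S ^ (n + e) ∩ S ^ (n + e)) := this
    linarith
  by_cases hqe : q ≤ e
  · apply goal n 0 e hn1 (by omega) rfl
    simp only [Nat.cast_zero, zero_mul]
    nlinarith
  · push Not at hqe
    by_contra hcon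
    have hfail : ∀ i < e, f (n + i) - τ * f n < ((q - e + i : ℕ) : ℝ) * (f (n + i + 1) - f (n + i)) := by
      intro i hi
      by_contra hle
      push Not at hle
      exact hcon (goal (n + i) (q - e + i) (e - i) (by omega) (by omega) (by omega) hle)
    -- induction
    have hind : ∀ i ≤ e, ((q - e + i : ℕ) : ℝ) * ((1 - τ) * f n) ≤
        ((q - e : ℕ) : ℝ) * (f (n + i) - τ * f n) := by
      intro i
      induction i with
      | zero => intro _; simp only [add_zero]; apply le_of_eq; ring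
      | succ i ih =>
          intro hi
          have h2 := ih (by omega)
          have h3 := hfail i (by omega)
          have hk : (0 : ℝ) < ((q - e + i : ℕ) : ℝ) := by
            exact_mod_cast (by omega : 0 < q - e + i)
          have e1 : ((q - e + (i + 1) : ℕ) : ℝ) = ((q - e + i : ℕ) : ℝ) + 1 := by push_cast; ring
          have e2 : n + (i + 1) = n + i + 1 := by ring
          rw [e1, e2]
          set kk : ℝ := ((q - e + i : ℕ) : ℝ)
          set k0 : ℝ := ((q - e : ℕ) : ℝ)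
          have hk0 : (0 : ℝ) ≤ k0 := Nat.cast_nonneg _
          -- kk (f' - τ f n) > (kk + 1) (f - τ f n)
          have h4 : (kk + 1) * (f (n + i) - τ * f n) ≤ kk * (f (n + i + 1) - τ * f n) := by linarith
          have h5 : kk * ((kk + 1) * ((1 - τ) * f n)) ≤ kk * (k0 * (f (n + i + 1) - τ * f n)) := by
            calc kk * ((kk + 1) * ((1 - τ) * f n)) = (kk + 1) * (kk * ((1 - τ) * f n)) := by ring
              _ ≤ (kk + 1) * (k0 * (f (n + i) - τ * f n)) :=
                  mul_le_mul_of_nonneg_left h2 (by linarith)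
              _ = k0 * ((kk + 1) * (f (n + i) - τ * f n)) := by ring
              _ ≤ k0 * (kk * (f (n + i + 1) - τ * f n)) := mul_le_mul_of_nonneg_left h4 hk0
              _ = _ := by ring
          exact le_of_mul_le_mul_left h5 hk
    have h6 := hind e le_rfl
    have e3 : q - e + e = q := by omega
    rw [e3] at h6
    -- and strictly
    have hqe' : ((q - e : ℕ) : ℝ) = (q : ℝ) - e := by
      rw [Nat.cast_sub hqe.le]
    rw [hqe'] at h6
    have hq0 : (0 : ℝ) < (q : ℝ) - e := by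
      have : (e : ℝ) < q := by exact_mod_cast hqe
      linarith
    -- ρ (q - e) < q
    have hn' : (ρ - 1) / (1 - ρ * (1 - 2 * ε)) < n :=
      ((le_max_right _ _).trans_lt hn₀).trans_le (by exact_mod_cast hn)
    rw [div_lt_iff₀ (by linarith)] at hn'
    have hq3' : (2 : ℝ) * q ≤ n + 1 := by exact_mod_cast hq3
    have h7 : ρ * ((q : ℝ) - e) < q := by nlinarith
    have h8 : f (n + e) - τ * f n ≤ (K - τ) * f n := by
      have : f (n + e) ≤ K * f n := hf
      linarith
    -- strictness from the first failure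
    have h9 : (q : ℝ) * ((1 - τ) * f n) ≤ ((q : ℝ) - e) * ((K - τ) * f n) :=
      h6.trans (mul_le_mul_of_nonneg_left h8 hq0.le)
    have hP : 0 < (1 - τ) * f n := mul_pos (by linarith) hfpos
    have h10 : ((q : ℝ) - e) * ((K - τ) * f n) ≤ ((q : ℝ) - e) * (ρ * ((1 - τ) * f n)) := by
      apply mul_le_mul_of_nonneg_left _ hq0.le
      calc (K - τ) * f n ≤ ρ * (1 - τ) * f n := mul_le_mul_of_nonneg_right hτρ hfpos.le
        _ = _ := by ring
    have h11 : ((q : ℝ) - e) * (ρ * ((1 - τ) * f n)) < q * ((1 - τ) * f n) := by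
      have := mul_lt_mul_of_pos_right h7 hP
      linarith
    linarith

end Pool.Agent.H98.Growth
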