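import Pool.Agent.H98.Growth.Conv
import Pool.Agent.H98.Growth.Overlap

/-!
# Dependent random choice
-/

set_option autoImplicit false

open MeasureTheory Set
open scoped Pointwise

namespace Pool.Agent.H98.Growth

variable {G : Type*} [Group G] [TopologicalSpace G] [IsTopologicalGroup G]
  [MeasurableSpace G] [BorelSpace G] {μ : Measure G} [μ.IsHaarMeasure]

/-- a symmetric bump function on a symmetric open precompact set -/
theorem exists_bump [LocallyCompactSpace G] [μ.InnerRegularCompactLTTop] (U : Set G)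
    (hUo : IsOpen U) (hUc : IsCompact (closure U)) (hUi : U⁻¹ = U) (δ : ℝ) (hδ : 0 < δ) :
    ∃ (u : G → ℝ) (C : Set G), CC u ∧ (∀ x, 0 ≤ u x ∧ u x ≤ 1) ∧ (∀ x, u x⁻¹ = u x) ∧
      (∀ x, x ∉ U → u x = 0) ∧ C ⊆ U ∧ C⁻¹ = C ∧ MeasurableSet C ∧ (∀ x ∈ C, u x = 1) ∧
      μ.real (U \ C) ≤ δ := by
  have hfin : μ U ≠ ⊤ := ((measure_mono subset_closure).trans_lt hUc.measure_lt_top).ne
  obtain ⟨C₀, hC₀U, hC₀, hC₀cl, hlt⟩ := hUo.measurableSet.exists_isCompact_isClosed_sdiff_lt hfin
    (ε := ENNReal.ofReal δ) (by simpa using hδ)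
  set C : Set G := C₀ ∪ C₀⁻¹ with hC
  have hCc : IsCompact C := hC₀.union hC₀.inv
  have hCcl : IsClosed C := hC₀cl.union hC₀cl.inv
  have hCU : C ⊆ U := by
    rintro x (hx | hx)
    · exact hC₀U hx
    · rw [← hUi]
      exact Set.inv_mem_inv.mp (by simpa using hC₀U (Set.mem_inv.mp hx))
  have hCi : C⁻¹ = C := by
    rw [hC, Set.union_inv, inv_inv, Set.union_comm]
  obtain ⟨f, hf1, hf0, _, hf01⟩ := exists_continuous_one_zero_of_isCompact hCc
    hUo.isClosed_compl (Set.disjoint_compl_right_iff_subset.mpr hCU)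
  refine ⟨fun x => max (f x) (f x⁻¹), C, ?_, ?_, ?_, ?_, hCU, hCi, hCcl.measurableSet, ?_, ?_⟩
  · refine CC.intro (f.continuous.max (f.continuous.comp continuous_inv)) hUc ?_
    intro x hx
    have h1 : x ∉ U := fun h => hx (subset_closure h)
    have h2 : x⁻¹ ∉ U := fun h => h1 (by rw [← hUi]; exact Set.mem_inv.mpr h)
    have h3 : f x = 0 := hf0 h1
    have h4 : f x⁻¹ = 0 := hf0 h2
    simp [h3, h4]
  · intro x
    exact ⟨le_max_of_le_left (hf01 x).1, max_le (hf01 x).2 (hf01 x⁻¹).2⟩
  · intro x
    simp only [inv_inv]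
    rw [max_comm]
  · intro x h1
    have h2 : x⁻¹ ∉ U := fun h => h1 (by rw [← hUi]; exact Set.mem_inv.mpr h)
    have h3 : f x = 0 := hf0 h1
    have h4 : f x⁻¹ = 0 := hf0 h2
    simp [h3, h4]
  · intro x hx
    have h3 : f x = 1 := hf1 hx
    apply le_antisymm
    · exact max_le (hf01 x).2 (hf01 x⁻¹).2
    · exact le_max_of_le_left h3.ge
  · have h1 : μ.real (U \ C) ≤ μ.real (U \ C₀) := by
      refine measureReal_mono (Set.sdiff_subset_sdiff_right Set.subset_union_left) ?_
      exact ne_top_of_le_ne_top hfin (measure_mono Set.sdiff_subset)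
    refine h1.trans ?_
    have := ENNReal.toReal_mono ENNReal.ofReal_ne_top hlt.le
    rwa [ENNReal.toReal_ofReal hδ.le] at this

/-- a bump function on an open precompact set -/
theorem exists_bump' [LocallyCompactSpace G] [μ.InnerRegularCompactLTTop] (V : Set G)
    (hVo : IsOpen V) (hVc : IsCompact (closure V)) (hV0 : 0 < μ.real V) :
    ∃ v : G → ℝ, CC v ∧ (∀ x, 0 ≤ v x ∧ v x ≤ 1) ∧ (∀ x, x ∉ V → v x = 0) ∧
      μ.real V / 2 ≤ ∫ x, v x ∂μ := by
  have hfin : μ V ≠ ⊤ := ((measure_mono subset_closure).trans_lt hVc.measure_lt_top).ne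
  obtain ⟨C, hCV, hC, hCcl, hlt⟩ := hVo.measurableSet.exists_isCompact_isClosed_sdiff_lt hfin
    (ε := ENNReal.ofReal (μ.real V / 2)) (by simpa using hV0)
  obtain ⟨f, hf1, hf0, _, hf01⟩ := exists_continuous_one_zero_of_isCompact hC
    hVo.isClosed_compl (Set.disjoint_compl_right_iff_subset.mpr hCV)
  have hf0' : ∀ x, x ∉ V → f x = 0 := fun x hx => hf0 hx
  have hcc : CC (fun x => f x) := CC.intro f.continuous hVc fun x hx =>
    hf0' x (fun h => hx (subset_closure h))
  refine ⟨fun x => f x, hcc, hf01, hf0', ?_⟩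
  have h1 : μ.real C ≤ ∫ x, f x ∂μ := by
    have e : μ.real C = ∫ x, C.indicator (fun _ => (1 : ℝ)) x ∂μ := by
      rw [integral_indicator hCcl.measurableSet]; simp
    rw [e]
    apply integral_mono
    · exact (integrable_indicator_iff hCcl.measurableSet).mpr
        (integrableOn_const hC.measure_lt_top.ne)
    · exact hcc.integrable μ
    · intro x
      by_cases hx : x ∈ C
      · rw [Set.indicator_of_mem hx]; exact (hf1 hx).ge
      · rw [Set.indicator_of_notMem hx]; exact (hf01 x).1
  have h2 : μ.real V = μ.real C + μ.real (V \ C) := by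
    have := measureReal_inter_add_sdiff (μ := μ) (s := V) hCcl.measurableSet hfin
    rw [Set.inter_eq_self_of_subset_right hCV] at this
    exact this.symm
  have h3 : μ.real (V \ C) ≤ μ.real V / 2 := by
    have := ENNReal.toReal_mono ENNReal.ofReal_ne_top hlt.le
    rwa [ENNReal.toReal_ofReal (by linarith)] at this
  linarith

/-- the triple overlap -/
noncomputable def om (μ : Measure G) (u : G → ℝ) (x y : G) : ℝ :=
  ∫ z, u z * (u (z⁻¹ * x) * u (z⁻¹ * y)) ∂μ

/-- the defect function -/
noncomputable def bet (μ : Measure G) (u : G → ℝ) (l : ℝ) (x y : G) : ℝ :=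
  max 0 (1 - om μ u x y / l)

theorem om_continuous {u : G → ℝ} (hu : CC u) :
    Continuous fun p : G × G => om μ u p.1 p.2 := by
  rw [← continuousOn_univ]
  apply continuousOn_integral_of_compact_support (k := tsupport u)
    (f := fun (p : G × G) z => u z * (u (z⁻¹ * p.1) * u (z⁻¹ * p.2))) hu.supp
  · refine ((hu.cont.comp continuous_snd).mul ((hu.cont.comp ?_).mul
      (hu.cont.comp ?_))).continuousOn
    · exact continuous_snd.inv.mul (continuous_fst.comp continuous_fst)
    · exact continuous_snd.inv.mul (continuous_snd.comp continuous_fst)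
  · intro p x _ hx
    rw [image_eq_zero_of_notMem_tsupport hx, zero_mul]

theorem bet_continuous {u : G → ℝ} (hu : CC u) (l : ℝ) :
    Continuous fun p : G × G => bet μ u l p.1 p.2 :=
  continuous_const.max (continuous_const.sub ((om_continuous hu).div_const l))

theorem bet_nonneg (u : G → ℝ) (l : ℝ) (x y : G) : 0 ≤ bet μ u l x y := le_max_left _ _

theorem om_nonneg {u : G → ℝ} (h0 : ∀ x, 0 ≤ u x) (x y : G) : 0 ≤ om μ u x y :=
  integral_nonneg fun _ => mul_nonneg (h0 _) (mul_nonneg (h0 _) (h0 _))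

theorem om_le_conv {u : G → ℝ} (hu : CC u) (h01 : ∀ x, 0 ≤ u x ∧ u x ≤ 1)
    (hi : ∀ x, u x⁻¹ = u x) (x y : G) : om μ u x y ≤ conv μ u u (x⁻¹ * y) := by
  have e : conv μ u u (x⁻¹ * y) = ∫ z, u (z⁻¹ * x) * u (z⁻¹ * y) ∂μ := by
    unfold conv
    rw [← integral_mul_left_eq_self (fun z => u (z⁻¹ * x) * u (z⁻¹ * y)) x]
    congr 1
    ext z
    have e1 : (x * z)⁻¹ * x = z⁻¹ := by group
    have e2 : (x * z)⁻¹ * y = z⁻¹ * (x⁻¹ * y) := by group
    rw [e1, e2, hi]
  rw [e]
  unfold om
  have hc : CC fun z => u (z⁻¹ * x) * u (z⁻¹ * y) := by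
    refine CC.intro ((hu.cont.comp (continuous_inv.mul continuous_const)).mul
      (hu.cont.comp (continuous_inv.mul continuous_const)))
      (k := x • (tsupport u)⁻¹) (hu.supp.isCompact.inv.smul x) ?_
    intro z hz
    have : z⁻¹ * x ∉ tsupport u := by
      intro h
      apply hz
      rw [Set.mem_smul_set_iff_inv_smul_mem, smul_eq_mul]
      rw [Set.mem_inv]
      have e3 : (x⁻¹ * z)⁻¹ = z⁻¹ * x := by group
      rwa [e3]
    rw [image_eq_zero_of_notMem_tsupport this, zero_mul]
  have hc2 : CC fun z => u z * (u (z⁻¹ * x) * u (z⁻¹ * y)) := by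
    refine CC.intro (hu.cont.mul hc.cont) hu.supp.isCompact ?_
    intro z hz
    rw [image_eq_zero_of_notMem_tsupport hz, zero_mul]
  apply integral_mono (hc2.integrable μ) (hc.integrable μ)
  intro z
  have h2 : 0 ≤ u (z⁻¹ * x) * u (z⁻¹ * y) := mul_nonneg (h01 _).1 (h01 _).1
  have := mul_le_mul_of_nonneg_right (h01 z).2 h2
  simpa using this

/-- `1 - β ≤ Φ / l` -/
theorem one_sub_bet_le {u : G → ℝ} (hu : CC u) (h01 : ∀ x, 0 ≤ u x ∧ u x ≤ 1)
    (hi : ∀ x, u x⁻¹ = u x) (l : ℝ) (hl : 0 < l) (x y : G) :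
    1 - bet μ u l x y ≤ conv μ u u (x⁻¹ * y) / l := by
  have h1 := om_le_conv (μ := μ) hu h01 hi x y
  have h2 : 1 - om μ u x y / l ≤ bet μ u l x y := le_max_right _ _
  have h3 : om μ u x y / l ≤ conv μ u u (x⁻¹ * y) / l := by gcongr
  linarith

theorem bet_mul_om_le {u : G → ℝ} (h0 : ∀ x, 0 ≤ u x) (l : ℝ) (hl : 0 < l) (x y : G) :
    bet μ u l x y * om μ u x y ≤ l := by
  have h1 := om_nonneg (μ := μ) h0 x y
  unfold bet
  rcases le_total (om μ u x y / l) 1 with h | h
  · rw [max_eq_right (by linarith)]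
    have h2 : om μ u x y ≤ l := by rwa [div_le_one hl] at h
    have h3 : 0 ≤ om μ u x y / l := by positivity
    nlinarith
  · rw [max_eq_left (by linarith), zero_mul]
    exact hl.le

/-- **Step B**: dependent random choice. -/
theorem exists_weight [LocallyCompactSpace G] [μ.InnerRegularCompactLTTop] (U V : Set G)
    (hUo : IsOpen U) (hUc : IsCompact (closure U)) (hUi : U⁻¹ = U) (hVo : IsOpen V) (hVU : V ⊆ U)
    (K τ : ℝ) (hK : 1 ≤ K) (hτ : 0 < τ) (hV0 : 0 < μ.real V)
    (hUK : μ.real U ≤ K * μ.real V) (hover : ∀ x ∈ V, τ * μ.real V ≤ μ.real (x • U ∩ U)) :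
    ∃ u w : G → ℝ, CC u ∧ (∀ x, 0 ≤ u x ∧ u x ≤ 1) ∧ (∀ x, u x⁻¹ = u x) ∧
      ∫ x, u x ∂μ ≤ K * μ.real V ∧ CC w ∧ (∀ x, 0 ≤ w x ∧ w x ≤ 1) ∧ (∀ x, x ∉ V → w x = 0) ∧
      τ * μ.real V / (8 * K) ≤ ∫ x, w x ∂μ ∧
      16 * ∫ x, (∫ y, bet μ u (τ ^ 2 * μ.real V / (128 * K)) x y * (w x * w y) ∂μ) ∂μ
        ≤ (∫ x, w x ∂μ) ^ 2 := by
  set a : ℝ := μ.real V with ha
  have hVc : IsCompact (closure V) := hUc.of_isClosed_subset isClosed_closure (closure_mono hVU)
  have hUfin : μ U ≠ ⊤ := ((measure_mono subset_closure).trans_lt hUc.measure_lt_top).ne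
  obtain ⟨u, C, hu, hu01, hui, hu0, hCU, hCi, hCm, hu1, hUC⟩ :=
    exists_bump (μ := μ) U hUo hUc hUi (τ * a / 4) (by positivity)
  obtain ⟨v, hv, hv01, hv0, hvint⟩ := exists_bump' (μ := μ) V hVo hVc hV0
  set l : ℝ := τ ^ 2 * a / (128 * K) with hl
  have hK0 : 0 < K := by linarith
  have hl0 : 0 < l := by positivity
  set J : ℝ := ∫ x, v x ∂μ with hJ
  have hJ0 : 0 < J := by linarith
  -- the integral of `u`
  have hCfin : μ C ≠ ⊤ := ne_top_of_le_ne_top hUfin (measure_mono hCU)
  have huint : ∫ x, u x ∂μ ≤ K * a := by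
    refine le_trans ?_ hUK
    have e : μ.real U = ∫ x, U.indicator (fun _ => (1 : ℝ)) x ∂μ := by
      rw [integral_indicator hUo.measurableSet]; simp
    rw [e]
    apply integral_mono (hu.integrable μ)
    · exact (integrable_indicator_iff hUo.measurableSet).mpr (integrableOn_const hUfin)
    · intro x
      by_cases hx : x ∈ U
      · rw [Set.indicator_of_mem hx]; exact (hu01 x).2
      · rw [Set.indicator_of_notMem hx]; exact (hu0 x hx).le
  -- the overlap function
  have hal : ∀ x ∈ V, τ * a / 2 ≤ conv μ u u x := by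
    intro x hx
    have h1 := hover x hx
    have h2 : x • U ∩ U ⊆ (C ∩ x • C) ∪ ((U \ C) ∪ x • (U \ C)) := by
      rintro z ⟨hz1, hz2⟩
      by_cases hzC : z ∈ C
      · by_cases hzC' : z ∈ x • C
        · exact Or.inl ⟨hzC, hzC'⟩
        · refine Or.inr (Or.inr ?_)
          rw [Set.smul_set_sdiff]
          exact ⟨hz1, hzC'⟩
      · exact Or.inr (Or.inl ⟨hz2, hzC⟩)
    have hfin3 : μ (U \ C) ≠ ⊤ := ne_top_of_le_ne_top hUfin (measure_mono Set.sdiff_subset)
    have hfin4 : μ (x • (U \ C)) ≠ ⊤ := by rwa [measure_smul]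
    have hfin5 : μ (C ∩ x • C) ≠ ⊤ := ne_top_of_le_ne_top hCfin (measure_mono Set.inter_subset_left)
    have h3 : μ.real (x • U ∩ U) ≤ μ.real (C ∩ x • C) + (μ.real (U \ C) + μ.real (x • (U \ C))) := by
      refine (measureReal_mono h2 (measure_union_ne_top hfin5
        (measure_union_ne_top hfin3 hfin4))).trans ?_
      refine (measureReal_union_le _ _).trans ?_
      gcongr
      exact measureReal_union_le _ _
    rw [real_smul] at h3
    have h4 : μ.real (C ∩ x • C) ≤ conv μ u u x := by
      have hm : MeasurableSet (C ∩ x • C) := hCm.inter (hCm.const_smul x)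
      have e : μ.real (C ∩ x • C) = ∫ z, (C ∩ x • C).indicator (fun _ => (1 : ℝ)) z ∂μ := by
        rw [integral_indicator hm]; simp
      rw [e]
      unfold conv
      apply integral_mono
      · exact (integrable_indicator_iff hm).mpr (integrableOn_const hfin5)
      · refine CC.integrable μ (CC.intro (hu.cont.mul (hu.cont.comp
          (continuous_inv.mul continuous_const))) hu.supp.isCompact ?_)
        intro z hz
        rw [image_eq_zero_of_notMem_tsupport hz, zero_mul]
      · intro z
        by_cases hz : z ∈ C ∩ x • C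
        · rw [Set.indicator_of_mem hz]
          have h5 : z⁻¹ * x ∈ C := by
            have := hz.2
            rw [Set.mem_smul_set_iff_inv_smul_mem, smul_eq_mul] at this
            rw [← hCi, Set.mem_inv]
            have e5 : (z⁻¹ * x)⁻¹ = x⁻¹ * z := by group
            rwa [e5]
          change (1 : ℝ) ≤ u z * u (z⁻¹ * x)
          rw [hu1 z hz.1, hu1 _ h5, mul_one]
        · rw [Set.indicator_of_notMem hz]
          exact mul_nonneg (hu01 _).1 (hu01 _).1
    linarith
  -- the first moment
  set g : G → ℝ := fun z => ∫ x, v x * u (z⁻¹ * x) ∂μ with hg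
  have hgcont : Continuous g := by
    rw [← continuousOn_univ]
    apply continuousOn_integral_of_compact_support (k := tsupport v)
      (f := fun z x => v x * u (z⁻¹ * x)) hv.supp
    · exact ((hv.cont.comp continuous_snd).mul
        (hu.cont.comp (continuous_fst.inv.mul continuous_snd))).continuousOn
    · intro p x _ hx
      rw [image_eq_zero_of_notMem_tsupport hx, zero_mul]
  have hk : IsCompact (tsupport u ∪ tsupport v) := hu.supp.isCompact.union hv.supp.isCompact
  have hfirst : τ * a / 2 * J ≤ ∫ z, u z * g z ∂μ := by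
    have e1 : ∫ z, u z * g z ∂μ = ∫ z, (∫ x, u z * (v x * u (z⁻¹ * x)) ∂μ) ∂μ := by
      congr 1; ext z; rw [hg, integral_const_mul]
    have e2 : ∫ z, (∫ x, u z * (v x * u (z⁻¹ * x)) ∂μ) ∂μ
        = ∫ x, (∫ z, u z * (v x * u (z⁻¹ * x)) ∂μ) ∂μ := by
      apply swap2 (fun z x => u z * (v x * u (z⁻¹ * x))) ?_ _ hk
      · intro z x hne
        constructor
        · left
          by_contra hcon
          exact hne (by simp only [image_eq_zero_of_notMem_tsupport hcon, zero_mul])
        · right
          by_contra hcon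
          exact hne (by simp only [image_eq_zero_of_notMem_tsupport hcon, zero_mul, mul_zero])
      · exact (hu.cont.comp continuous_fst).mul ((hv.cont.comp continuous_snd).mul
          (hu.cont.comp (continuous_fst.inv.mul continuous_snd)))
    have e3 : ∀ x, ∫ z, u z * (v x * u (z⁻¹ * x)) ∂μ = v x * conv μ u u x := by
      intro x
      unfold conv
      rw [← integral_const_mul]
      congr 1; ext z; ring
    rw [e1, e2]
    simp_rw [e3]
    rw [hJ, ← integral_const_mul]
    apply integral_mono ((hv.const_mul _).integrable μ)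
    · refine CC.integrable μ (CC.intro (hv.cont.mul (conv_cc (μ := μ) hu hu).cont)
        hv.supp.isCompact ?_)
      intro x hx
      rw [image_eq_zero_of_notMem_tsupport hx, zero_mul]
    · intro x
      change τ * a / 2 * v x ≤ v x * conv μ u u x
      by_cases hx : x ∈ V
      · have := mul_le_mul_of_nonneg_left (hal x hx) (hv01 x).1
        linarith
      · rw [hv0 x hx]; simp
  -- the second moment
  have hsecond : τ ^ 2 * a * J ^ 2 / (4 * K) ≤ ∫ z, u z * g z ^ 2 ∂μ := by
    set t : ℝ := τ * J / (2 * K) with ht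
    have hug : CC fun z => u z * g z := CC.intro (hu.cont.mul hgcont) hu.supp.isCompact
      fun z hz => by rw [image_eq_zero_of_notMem_tsupport hz, zero_mul]
    have hug2 : CC fun z => u z * g z ^ 2 := CC.intro (hu.cont.mul (hgcont.pow 2)) hu.supp.isCompact
      fun z hz => by rw [image_eq_zero_of_notMem_tsupport hz, zero_mul]
    have h1 : ∫ z, (2 * t * (u z * g z) - t ^ 2 * u z) ∂μ ≤ ∫ z, u z * g z ^ 2 ∂μ := by
      apply integral_mono
      · exact ((hug.const_mul _).integrable μ).sub ((hu.const_mul _).integrable μ)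
      · exact hug2.integrable μ
      · intro z
        have h2 : 0 ≤ u z * (g z - t) ^ 2 := mul_nonneg (hu01 z).1 (sq_nonneg _)
        change 2 * t * (u z * g z) - t ^ 2 * u z ≤ u z * g z ^ 2
        nlinarith
    rw [integral_sub ((hug.const_mul _).integrable μ) ((hu.const_mul _).integrable μ),
      integral_const_mul, integral_const_mul] at h1
    have ht0 : 0 ≤ t := by positivity
    have h3 : 2 * t * (τ * a / 2 * J) ≤ 2 * t * ∫ z, u z * g z ∂μ :=
      mul_le_mul_of_nonneg_left hfirst (by positivity)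
    have h4 : t ^ 2 * ∫ z, u z ∂μ ≤ t ^ 2 * (K * a) :=
      mul_le_mul_of_nonneg_left huint (by positivity)
    have h5 : 2 * t * (τ * a / 2 * J) - t ^ 2 * (K * a) = τ ^ 2 * a * J ^ 2 / (4 * K) := by
      rw [ht]; field_simp; ring
    linarith
  -- the bad pairs
  set B : G → ℝ := fun z => ∫ x, (∫ y, bet μ u l x y * ((v x * u (z⁻¹ * x)) * (v y * u (z⁻¹ * y))) ∂μ) ∂μ
    with hB
  have hbc := bet_continuous (μ := μ) hu l
  have hBcont : Continuous B := by
    have hin : Continuous fun p : G × G =>
        ∫ y, bet μ u l p.2 y * ((v p.2 * u (p.1⁻¹ * p.2)) * (v y * u (p.1⁻¹ * y))) ∂μ := by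
      rw [← continuousOn_univ]
      apply continuousOn_integral_of_compact_support (k := tsupport v)
        (f := fun (p : G × G) y =>
          bet μ u l p.2 y * ((v p.2 * u (p.1⁻¹ * p.2)) * (v y * u (p.1⁻¹ * y)))) hv.supp
      · refine Continuous.continuousOn ?_
        refine (hbc.comp ((continuous_snd.comp continuous_fst).prodMk continuous_snd)).mul
          (((hv.cont.comp (continuous_snd.comp continuous_fst)).mul (hu.cont.comp ?_)).mul
          ((hv.cont.comp continuous_snd).mul (hu.cont.comp ?_)))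
        · exact (continuous_fst.comp continuous_fst).inv.mul (continuous_snd.comp continuous_fst)
        · exact (continuous_fst.comp continuous_fst).inv.mul continuous_snd
      · intro p y _ hy
        rw [image_eq_zero_of_notMem_tsupport hy, zero_mul, mul_zero, mul_zero]
    rw [← continuousOn_univ]
    apply continuousOn_integral_of_compact_support (k := tsupport v)
      (f := fun z x => ∫ y, bet μ u l x y * ((v x * u (z⁻¹ * x)) * (v y * u (z⁻¹ * y))) ∂μ) hv.supp
    · exact hin.continuousOn
    · intro p x _ hx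
      simp [image_eq_zero_of_notMem_tsupport hx]
  have hBint : ∫ z, u z * B z ∂μ ≤ l * J ^ 2 := by
    have e1 : ∫ z, u z * B z ∂μ = ∫ z, (∫ x, (∫ y,
        u z * (bet μ u l x y * ((v x * u (z⁻¹ * x)) * (v y * u (z⁻¹ * y)))) ∂μ) ∂μ) ∂μ := by
      congr 1; ext z
      rw [hB]
      simp only
      rw [← integral_const_mul]
      congr 1; ext x
      rw [← integral_const_mul]
    have e2 := swap3 (μ := μ)
      (fun z x y => u z * (bet μ u l x y * ((v x * u (z⁻¹ * x)) * (v y * u (z⁻¹ * y))))) (by
        refine (hu.cont.comp continuous_fst).mul ((hbc.comp continuous_snd).mul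
          (((hv.cont.comp (continuous_fst.comp continuous_snd)).mul (hu.cont.comp ?_)).mul
          ((hv.cont.comp (continuous_snd.comp continuous_snd)).mul (hu.cont.comp ?_))))
        · exact continuous_fst.inv.mul (continuous_fst.comp continuous_snd)
        · exact continuous_fst.inv.mul (continuous_snd.comp continuous_snd)) _ hk (by
        intro z x y hne
        refine ⟨Or.inl ?_, Or.inr ?_, Or.inr ?_⟩
        · by_contra hcon
          exact hne (by simp only [image_eq_zero_of_notMem_tsupport hcon, zero_mul])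
        · by_contra hcon
          exact hne (by simp only [image_eq_zero_of_notMem_tsupport hcon, zero_mul, mul_zero])
        · by_contra hcon
          exact hne (by simp only [image_eq_zero_of_notMem_tsupport hcon, zero_mul, mul_zero]))
    have e3 : ∀ x y, ∫ z, u z * (bet μ u l x y * ((v x * u (z⁻¹ * x)) * (v y * u (z⁻¹ * y)))) ∂μ
        = (v x * v y) * (bet μ u l x y * om μ u x y) := by
      intro x y
      unfold om
      rw [← integral_const_mul, ← integral_const_mul]
      congr 1; ext z; ring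
    rw [e1, e2]
    simp_rw [e3]
    have hobc : Continuous fun p : G × G => bet μ u l p.1 p.2 * om μ u p.1 p.2 :=
      hbc.mul (om_continuous hu)
    have h6 : ∀ x, ∫ y, (v x * v y) * (bet μ u l x y * om μ u x y) ∂μ ≤ l * (v x * J) := by
      intro x
      rw [hJ, ← integral_const_mul, ← integral_const_mul]
      apply integral_mono
      · refine CC.integrable μ (CC.intro ((continuous_const.mul hv.cont).mul
          (hobc.comp (continuous_const.prodMk continuous_id))) hv.supp.isCompact ?_)
        intro y hy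
        rw [image_eq_zero_of_notMem_tsupport hy, mul_zero, zero_mul]
      · exact (((hv.const_mul (v x)).const_mul l).integrable μ)
      · intro y
        change v x * v y * (bet μ u l x y * om μ u x y) ≤ l * (v x * v y)
        have h7 := bet_mul_om_le (μ := μ) (fun x => (hu01 x).1) l hl0 x y
        have h8 : 0 ≤ v x * v y := mul_nonneg (hv01 x).1 (hv01 y).1
        have := mul_le_mul_of_nonneg_left h7 h8
        linarith
    have h9 : l * J ^ 2 = ∫ x, l * (v x * J) ∂μ := by
      rw [integral_const_mul, integral_mul_const]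
      rw [← hJ]; ring
    rw [h9]
    apply integral_mono
    · have hin : Continuous fun x => ∫ y, (v x * v y) * (bet μ u l x y * om μ u x y) ∂μ := by
        rw [← continuousOn_univ]
        apply continuousOn_integral_of_compact_support (k := tsupport v)
          (f := fun x y => (v x * v y) * (bet μ u l x y * om μ u x y)) hv.supp
        · exact (((hv.cont.comp continuous_fst).mul (hv.cont.comp continuous_snd)).mul
            hobc).continuousOn
        · intro p x _ hx
          rw [image_eq_zero_of_notMem_tsupport hx, mul_zero, zero_mul]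
      refine CC.integrable μ (CC.intro hin hv.supp.isCompact ?_)
      intro x hx
      simp [image_eq_zero_of_notMem_tsupport hx]
    · refine CC.integrable μ (CC.intro (continuous_const.mul (hv.cont.mul continuous_const))
        hv.supp.isCompact ?_)
      intro x hx
      rw [image_eq_zero_of_notMem_tsupport hx, zero_mul, mul_zero]
    · exact h6
  -- choose `z`
  obtain ⟨z, hz⟩ : ∃ z, τ ^ 2 * J ^ 2 / (16 * K ^ 2) ≤ g z ^ 2 - 16 * B z := by
    by_contra hcon
    push Not at hcon
    have hug2 : CC fun z => u z * g z ^ 2 := CC.intro (hu.cont.mul (hgcont.pow 2)) hu.supp.isCompact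
      fun z hz => by rw [image_eq_zero_of_notMem_tsupport hz, zero_mul]
    have huB : CC fun z => u z * B z := CC.intro (hu.cont.mul hBcont) hu.supp.isCompact
      fun z hz => by rw [image_eq_zero_of_notMem_tsupport hz, zero_mul]
    have h1 : ∫ z, (u z * g z ^ 2 - 16 * (u z * B z)) ∂μ
        ≤ ∫ z, (τ ^ 2 * J ^ 2 / (16 * K ^ 2)) * u z ∂μ := by
      apply integral_mono
      · exact (hug2.integrable μ).sub ((huB.const_mul _).integrable μ)
      · exact (hu.const_mul _).integrable μ
      · intro z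
        have := mul_le_mul_of_nonneg_left (hcon z).le (hu01 z).1
        change u z * g z ^ 2 - 16 * (u z * B z) ≤ (τ ^ 2 * J ^ 2 / (16 * K ^ 2)) * u z
        linarith
    rw [integral_sub (hug2.integrable μ) ((huB.const_mul _).integrable μ),
      integral_const_mul, integral_const_mul] at h1
    have h2 : (τ ^ 2 * J ^ 2 / (16 * K ^ 2)) * ∫ z, u z ∂μ
        ≤ (τ ^ 2 * J ^ 2 / (16 * K ^ 2)) * (K * a) :=
      mul_le_mul_of_nonneg_left huint (by positivity)
    have h3 : (τ ^ 2 * J ^ 2 / (16 * K ^ 2)) * (K * a) = τ ^ 2 * a * J ^ 2 / (4 * K) / 4 := by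
      field_simp; ring
    have h4 : 16 * (l * J ^ 2) = τ ^ 2 * a * J ^ 2 / (4 * K) / 2 := by
      rw [hl]; field_simp; ring
    have h5 : 0 < τ ^ 2 * a * J ^ 2 / (4 * K) := by positivity
    linarith
  have hB0 : 0 ≤ B z := by
    apply integral_nonneg
    intro x
    apply integral_nonneg
    intro y
    exact mul_nonneg (bet_nonneg _ _ _ _) (mul_nonneg (mul_nonneg (hv01 _).1 (hu01 _).1)
      (mul_nonneg (hv01 _).1 (hu01 _).1))
  have hg0 : 0 ≤ g z := integral_nonneg fun x => mul_nonneg (hv01 _).1 (hu01 _).1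
  refine ⟨u, fun x => v x * u (z⁻¹ * x), hu, hu01, hui, huint, ?_, ?_, ?_, ?_, ?_⟩
  · refine CC.intro (hv.cont.mul (hu.cont.comp (continuous_const.mul continuous_id)))
      hv.supp.isCompact ?_
    intro x hx
    rw [image_eq_zero_of_notMem_tsupport hx, zero_mul]
  · intro x
    exact ⟨mul_nonneg (hv01 _).1 (hu01 _).1, mul_le_one₀ (hv01 _).2 (hu01 _).1 (hu01 _).2⟩
  · intro x hx
    change v x * u (z⁻¹ * x) = 0
    rw [hv0 x hx, zero_mul]
  · have h1 : (τ * a / (8 * K)) ^ 2 ≤ g z ^ 2 := by
      have h2 : (τ * a / (8 * K)) ^ 2 ≤ τ ^ 2 * J ^ 2 / (16 * K ^ 2) := by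
        have h3 : (τ * a / (8 * K)) ^ 2 = τ ^ 2 * (a / 2) ^ 2 / (16 * K ^ 2) := by
          field_simp; ring
        rw [h3]
        gcongr
      linarith
    exact (pow_le_pow_iff_left₀ (by positivity) hg0 two_ne_zero).mp h1
  · have h1 : 0 ≤ τ ^ 2 * J ^ 2 / (16 * K ^ 2) := by positivity
    have h2 : 16 * B z ≤ g z ^ 2 := by linarith
    exact h2

end Pool.Agent.H98.Growth
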